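import Pool.Agent.H94.AF.Deg

/-!
The names and voltages for the coding of a matrix `γ`, and the reading of the matrix.
-/

set_option autoImplicit false

namespace Pool.Agent.H94.AF

open scoped Classical
open Pool.Agent.H565R2.FO2 (Code Iso toI)
open Pool.Agent.H94.FL (extv)

variable {L : FirstOrder.Language.{0, 0}}

/-- an automorphism which moves `a`, if there is one -/
noncomputable def mv (c : Code L) (a : ℕ) : Equiv.Perm ℕ :=
  if h : ∃ g ∈ aut c, g a ≠ a then h.choose else 1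

theorem mv_mem (c : Code L) (a : ℕ) : mv c a ∈ aut c := by
  unfold mv
  split_ifs with h
  · exact h.choose_spec.1
  · exact (aut c).one_mem

theorem mv_ne {c : Code L} {a : ℕ} (ha : ¬ Fx c a) : mv c a a ≠ a := by
  unfold Fx at ha
  push Not at ha
  unfold mv
  rw [dif_pos ha]
  exact ha.choose_spec.2

/-- the order of the elements with the same name -/
def Lo (x y : ℕ) : Prop := (x % 3 ≠ 0 ∧ y % 3 = 0) ∨ ((x % 3 = 0 ↔ y % 3 = 0) ∧ x < y)

theorem lo_anti {x y : ℕ} (h : x ≠ y) : Lo y x ↔ ¬ Lo x y := by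
  unfold Lo
  by_cases h1 : x % 3 = 0 <;> by_cases h2 : y % 3 = 0 <;> simp [h1, h2] <;> omega

namespace Cfg

variable {c : Code L} (C : Cfg c)

/-- the names -/
noncomputable def nu (n : ℕ) : ℕ :=
  if n % 3 = 0 then C.W C.l else if n % 3 = 1 then C.W C.i else
    if Fx c (n / 3).unpair.1 ∧ (n / 3).unpair.2 ≠ 0 then C.W C.l else (n / 3).unpair.1

/-- the ordinary element of the name `a` -/
def ι (a : ℕ) : ℕ := 3 * Nat.pair a 0 + 2

def r0 : Bool := c ⟨C.n₀, C.R₀, fun p => C.W p⟩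

noncomputable def kk (b : Bool) : Equiv.Perm ℕ := if b = C.r0 then 1 else C.g

noncomputable def hv (γ : ℕ → ℕ → Bool) (x y : ℕ) : Equiv.Perm ℕ :=
  if x = y then 1
  else if C.nu x = C.nu y then (if Lo x y then mv c (C.nu x) else (mv c (C.nu x))⁻¹)
  else if x % 3 = 1 ∧ y % 3 = 0 then C.kk (γ (y / 3) (x / 3))
  else if x % 3 = 0 ∧ y % 3 = 1 then (C.kk (γ (x / 3) (y / 3)))⁻¹
  else 1

noncomputable def vo (γ : ℕ → ℕ → Bool) : Volt where
  Fx := Fx c
  ν := C.nu
  h := C.hv γ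

theorem nu_ι (a : ℕ) : C.nu (ι a) = a := by
  unfold nu ι
  rw [if_neg (by omega), if_neg (by omega), show (3 * Nat.pair a 0 + 2) / 3 = Nat.pair a 0 by omega,
    Nat.unpair_pair]
  simp

theorem nu_C (j : ℕ) : C.nu (3 * j) = C.W C.l := if_pos (by omega)

theorem nu_B (t : ℕ) : C.nu (3 * t + 1) = C.W C.i := by
  unfold nu
  rw [if_neg (by omega), if_pos (by omega)]

theorem nu_0 {x : ℕ} (h : x % 3 = 0) : C.nu x = C.W C.l := if_pos h

theorem nu_1 {x : ℕ} (h : x % 3 = 1) : C.nu x = C.W C.i := by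
  unfold nu
  rw [if_neg (by omega), if_pos h]

theorem ι_mod (a : ℕ) : ι a % 3 = 2 := by unfold ι; omega

theorem kk_mem (b : Bool) : C.kk b ∈ aut c := by
  unfold kk
  split_ifs
  · exact (aut c).one_mem
  · exact C.hg

theorem nu_king {x y : ℕ} (hx : Fx c (C.nu x)) (hxy : C.nu x = C.nu y) : x = y := by
  have key : ∀ z, Fx c (C.nu z) → z = ι (C.nu z) := by
    intro z hz
    by_cases h0 : z % 3 = 0
    · rw [C.nu_0 h0] at hz
      exact absurd hz C.fl
    by_cases h1 : z % 3 = 1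
    · rw [C.nu_1 h1] at hz
      exact absurd hz C.fi
    by_cases h2 : Fx c (z / 3).unpair.1 ∧ (z / 3).unpair.2 ≠ 0
    · have h3 : C.nu z = C.W C.l := by
        unfold nu
        rw [if_neg h0, if_neg h1, if_pos h2]
      rw [h3] at hz
      exact absurd hz C.fl
    · have h3 : C.nu z = (z / 3).unpair.1 := by
        unfold nu
        rw [if_neg h0, if_neg h1, if_neg h2]
      rw [h3] at hz
      have h4 : (z / 3).unpair.2 = 0 := by
        by_contra h4
        exact h2 ⟨hz, h4⟩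
      rw [h3]
      unfold ι
      rw [← h4, Nat.pair_unpair]
      omega
  rw [key x hx, hxy]
  exact (key y (hxy ▸ hx)).symm

theorem hv_self (γ : ℕ → ℕ → Bool) (x : ℕ) : C.hv γ x x = 1 := if_pos rfl

theorem hv_anti (γ : ℕ → ℕ → Bool) (x y : ℕ) : C.hv γ y x = (C.hv γ x y)⁻¹ := by
  by_cases h : x = y
  · subst h
    rw [hv_self, inv_one]
  unfold hv
  rw [if_neg h, if_neg fun h' => h h'.symm]
  by_cases hn : C.nu x = C.nu y
  · rw [if_pos hn, if_pos hn.symm, hn]
    by_cases hl : Lo x y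
    · rw [if_pos hl, if_neg fun h' => (lo_anti h).1 h' hl]
    · rw [if_neg hl, if_pos ((lo_anti h).2 hl), inv_inv]
  · rw [if_neg hn, if_neg fun h' => hn h'.symm]
    by_cases h1 : x % 3 = 1 ∧ y % 3 = 0
    · rw [if_pos h1, if_neg (by omega), if_pos ⟨h1.2, h1.1⟩]
    · rw [if_neg h1]
      by_cases h2 : x % 3 = 0 ∧ y % 3 = 1
      · rw [if_pos h2, if_pos ⟨h2.2, h2.1⟩, inv_inv]
      · rw [if_neg h2, if_neg fun h' => h2 ⟨h'.2, h'.1⟩, if_neg fun h' => h1 ⟨h'.2, h'.1⟩, inv_one]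

theorem ok (γ : ℕ → ℕ → Bool) : (C.vo γ).Ok (aut c) where
  fx := fun a => Iff.rfl
  mem := by
    intro x y
    show C.hv γ x y ∈ aut c
    unfold hv
    split_ifs
    · exact (aut c).one_mem
    · exact mv_mem _ _
    · exact (aut c).inv_mem (mv_mem _ _)
    · exact C.kk_mem _
    · exact (aut c).inv_mem (C.kk_mem _)
    · exact (aut c).one_mem
  anti := C.hv_anti γ
  self := C.hv_self γ
  ne := by
    intro x y hxy hx hy
    show C.nu x ≠ C.hv γ x y (C.nu y)
    have hx' : ¬ Fx c (C.nu x) := hx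
    unfold hv
    rw [if_neg hxy]
    by_cases hn : C.nu x = C.nu y
    · rw [if_pos hn, ← hn]
      split_ifs
      · exact (mv_ne hx').symm
      · intro h
        have h1 := congrArg (mv c (C.nu x)) h
        rw [← Equiv.Perm.mul_apply, mul_inv_cancel, Equiv.Perm.one_apply] at h1
        exact mv_ne hx' h1
    · rw [if_neg hn]
      split_ifs with h1 h2
      · rw [C.nu_1 h1.1, C.nu_0 h1.2]
        unfold kk
        split_ifs
        · exact C.hne
        · exact C.hng
      · rw [C.nu_0 h2.1, C.nu_1 h2.2]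
        unfold kk
        split_ifs
        · rw [inv_one]
          exact C.hne.symm
        · intro h
          refine C.hng ?_
          rw [h]
          simp
      · exact hn
  king := fun x y hx hxy => C.nu_king hx hxy
  name := fun d => ⟨ι d, C.nu_ι d⟩
  rich := by
    intro x d _ hd hne
    have hd' : ¬ Fx c d := hd
    have hne' : d ≠ C.nu x := hne
    refine ⟨ι d, ?_, ?_⟩
    · show ¬ Fx c (C.nu (ι d))
      rw [C.nu_ι]
      exact hd'
    · show C.hv γ x (ι d) (C.nu (ι d)) = d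
      have h1 : C.hv γ x (ι d) = 1 := by
        have h2 := ι_mod d
        have h3 := C.nu_ι d
        have h4 : C.nu x ≠ C.nu (ι d) := by rw [h3]; exact hne'.symm
        unfold hv
        rw [if_neg fun h => h4 (by rw [h]), if_neg h4, if_neg (by omega), if_neg (by omega)]
      rw [h1, C.nu_ι]
      rfl

/-- the block of the letter before the place of the coding -/
def K1 (p : ℕ) : Prop := p ≤ C.i ∧ C.W p = C.W C.i ∧
  ∀ r, p ≤ r → r ≤ C.i → ¬ Fx c (C.W r) → C.W r = C.W C.i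

/-- the block of the letter behind the place of the coding -/
def K2 (p : ℕ) : Prop := C.l ≤ p ∧ C.W p = C.W C.l ∧
  ∀ r, C.l ≤ r → r ≤ p → ¬ Fx c (C.W r) → C.W r = C.W C.l

noncomputable def sub (q : Fin C.n₀ → ℕ) (m n : ℕ) : Fin C.n₀ → ℕ := fun p =>
  if C.K1 p then m else if C.K2 p then n else q p

noncomputable def q0 : Fin C.n₀ → ℕ := fun p => ι (C.W p)

noncomputable def wd (m n : ℕ) (p : ℕ) : ℕ := if C.K1 p then m else if C.K2 p then n else ι (C.W p)

theorem sub_map (f : ℕ → ℕ) (q : Fin C.n₀ → ℕ) (m n : ℕ) :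
    (fun p => f (C.sub q m n p)) = C.sub (fun p => f (q p)) (f m) (f n) := by
  funext p
  unfold sub
  split_ifs <;> rfl

/-- the new structure -/
noncomputable def str (γ : ℕ → ℕ → Bool) : Code L := bl (C.vo γ) c

/-- the relation used for the decoding -/
def Rel (γ : ℕ → ℕ → Bool) (q : Fin C.n₀ → ℕ) (n m : ℕ) : Prop :=
  C.str γ ⟨C.n₀, C.R₀, C.sub q m n⟩ = true

theorem rel_iso {γ γ' : ℕ → ℕ → Bool} (f : ℕ ≃ ℕ)
    (hf : ∀ n (R : L.Relations n) (t : Fin n → ℕ),
      C.str γ ⟨n, R, t⟩ = C.str γ' ⟨n, R, fun k => f (t k)⟩) (q : Fin C.n₀ → ℕ) (n m : ℕ) :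
    C.Rel γ' (fun p => f (q p)) (f n) (f m) ↔ C.Rel γ q n m := by
  unfold Rel
  rw [hf, C.sub_map]

theorem str_q0 (γ : ℕ → ℕ → Bool) (n m : ℕ) : C.str γ ⟨C.n₀, C.R₀, C.sub C.q0 m n⟩ =
    c ⟨C.n₀, C.R₀, fun p => (C.vo γ).lam (C.wd m n) p⟩ := by
  show c _ = c _
  refine congrArg (fun t => c ⟨C.n₀, C.R₀, t⟩) (funext fun p => ?_)
  refine Volt.lam_congr _ fun r hr => ?_
  have hr' : r < C.n₀ := lt_of_le_of_lt hr p.2
  exact extv_lt (C.sub C.q0 m n) ⟨r, hr'⟩

/-- the word at the place of the coding -/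
theorem tr_code (γ : ℕ → ℕ → Bool) (j t p : ℕ) (hp : ¬ Fx c (C.W p)) :
    (C.vo γ).tr (C.wd (3 * t + 1) (3 * j)) p = if p < C.l then 1 else C.kk (γ j t) := by
  have hK12 : ∀ p, C.K1 p → C.K2 p → False := fun p h1 h2 => by
    have := C.hil
    have := h1.1
    have := h2.1
    omega
  have hnu : ∀ p, C.nu (C.wd (3 * t + 1) (3 * j) p) = C.W p := by
    intro p
    unfold wd
    split_ifs with h1 h2
    · rw [C.nu_B, h1.2.1]
    · rw [C.nu_C, h2.2.1]
    · exact C.nu_ι _
  have hFx : ∀ p, (C.vo γ).Fx ((C.vo γ).ν (C.wd (3 * t + 1) (3 * j) p)) ↔ Fx c (C.W p) := by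
    intro p
    show Fx c (C.nu (C.wd (3 * t + 1) (3 * j) p)) ↔ _
    rw [hnu]
  have hcases : ∀ p, (C.K1 p ∧ C.wd (3 * t + 1) (3 * j) p = 3 * t + 1) ∨
      (C.K2 p ∧ C.wd (3 * t + 1) (3 * j) p = 3 * j) ∨
      (¬ C.K1 p ∧ ¬ C.K2 p ∧ C.wd (3 * t + 1) (3 * j) p = ι (C.W p)) := by
    intro p
    unfold wd
    by_cases h1 : C.K1 p
    · exact Or.inl ⟨h1, if_pos h1⟩
    · by_cases h2 : C.K2 p
      · refine Or.inr (Or.inl ⟨h2, ?_⟩)
        rw [if_neg h1, if_pos h2]
      · refine Or.inr (Or.inr ⟨h1, h2, ?_⟩)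
        rw [if_neg h1, if_neg h2]
  -- the step
  have hstep : ∀ q p, q < p → ¬ Fx c (C.W q) → ¬ Fx c (C.W p) →
      (∀ r, q < r → r < p → Fx c (C.W r)) →
      C.hv γ (C.wd (3 * t + 1) (3 * j) q) (C.wd (3 * t + 1) (3 * j) p) =
        if q = C.i ∧ p = C.l then C.kk (γ j t) else 1 := by
    intro q p hqp hq hp hb
    have hil := C.hil
    by_cases h0 : q = C.i ∧ p = C.l
    · rw [if_pos h0]
      obtain ⟨rfl, rfl⟩ := h0
      have k1 : C.K1 C.i := ⟨le_rfl, rfl, fun r h1 h2 _ => by rw [le_antisymm h2 h1]⟩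
      have k2 : C.K2 C.l := ⟨le_rfl, rfl, fun r h1 h2 _ => by rw [le_antisymm h2 h1]⟩
      have e1 : C.wd (3 * t + 1) (3 * j) C.i = 3 * t + 1 := if_pos k1
      have e2 : C.wd (3 * t + 1) (3 * j) C.l = 3 * j := by
        unfold wd
        rw [if_neg fun h => hK12 _ h k2, if_pos k2]
      rw [e1, e2]
      unfold hv
      rw [if_neg (by omega), if_neg (by rw [C.nu_B, C.nu_C]; exact C.hne), if_pos (by omega),
        show 3 * j / 3 = j by omega, show (3 * t + 1) / 3 = t by omega]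
    · rw [if_neg h0]
      have hside : p ≤ C.i ∨ C.l ≤ q := by
        by_contra hc
        push Not at hc
        have h1 : C.i ≤ q := by
          by_contra h1
          exact C.fi (hb C.i (by omega) (by omega))
        have h2 : p ≤ C.l := by
          by_contra h2
          exact C.fl (hb C.l (by omega) (by omega))
        have h3 : q = C.i := by
          by_contra h3
          exact hq (C.hbt q (by omega) (by omega))
        have h4 : p = C.l := by
          by_contra h4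
          exact hp (C.hbt p (by omega) (by omega))
        exact h0 ⟨h3, h4⟩
      have hK1 : C.W q = C.W p → (C.K1 q ↔ C.K1 p) := by
        intro hW
        constructor
        · rintro ⟨h1, h2, h3⟩
          have hpi : p ≤ C.i := by omega
          exact ⟨hpi, hW ▸ h2, fun r h4 h5 h6 => h3 r (by omega) h5 h6⟩
        · rintro ⟨h1, h2, h3⟩
          refine ⟨by omega, hW ▸ h2, fun r h4 h5 h6 => ?_⟩
          rcases lt_or_ge r p with h7 | h7
          · rcases eq_or_lt_of_le h4 with h8 | h8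
            · rw [← h8, hW]; exact h2
            · exact absurd (hb r h8 h7) h6
          · exact h3 r h7 h5 h6
      have hK2 : C.W q = C.W p → (C.K2 q ↔ C.K2 p) := by
        intro hW
        constructor
        · rintro ⟨h1, h2, h3⟩
          refine ⟨by omega, hW ▸ h2, fun r h4 h5 h6 => ?_⟩
          rcases lt_or_ge q r with h7 | h7
          · rcases eq_or_lt_of_le h5 with h8 | h8
            · rw [h8, ← hW]; exact h2
            · exact absurd (hb r h7 h8) h6
          · exact h3 r h4 h7 h6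
        · rintro ⟨h1, h2, h3⟩
          have hpi : C.l ≤ q := by omega
          exact ⟨hpi, hW ▸ h2, fun r h4 h5 h6 => h3 r h4 (by omega) h6⟩
      by_cases hW : C.W q = C.W p
      · have e : C.wd (3 * t + 1) (3 * j) q = C.wd (3 * t + 1) (3 * j) p := by
          unfold wd
          simp only [hK1 hW, hK2 hW, hW]
        rw [e, hv_self]
      · unfold hv
        have h1 := hnu q
        have h2 := hnu p
        rw [if_neg fun h => hW (by rw [← h1, ← h2, h]), if_neg fun h => hW (by rw [← h1, ← h2, h])]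
        have hι1 := ι_mod (C.W q)
        have hι2 := ι_mod (C.W p)
        rcases hcases q with ⟨h3, h4⟩ | ⟨h3, h4⟩ | ⟨-, -, h4⟩ <;>
          rcases hcases p with ⟨h5, h6⟩ | ⟨h5, h6⟩ | ⟨-, -, h6⟩ <;> rw [h4, h6] <;>
          first
            | rw [if_neg (by omega), if_neg (by omega)]
            | (exfalso
               have := h3.1
               have := h5.1
               omega)
  induction p using Nat.strong_induction_on with
  | _ p ih =>
  have hil := C.hil
  rcases last_nf c C.W p with h1 | ⟨q, hq, h1, h2⟩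
  · rw [Volt.tr_first _ fun r hr => (hFx r).2 (h1 r hr)]
    have h3 : p ≤ C.i := by
      by_contra h3
      exact C.fi (h1 _ (by omega))
    rw [if_pos (by omega)]
  · rw [Volt.tr_next _ hq (fun h => h1 ((hFx q).1 h)) (fun h => hp ((hFx p).1 h))
      fun r h3 h4 => (hFx r).2 (h2 r h3 h4), ih q hq h1]
    show _ * C.hv γ _ _ = _
    rw [hstep q p hq h1 hp h2]
    by_cases h0 : q = C.i ∧ p = C.l
    · rw [if_pos h0, if_pos (by omega), if_neg (by omega), one_mul]
    · rw [if_neg h0, mul_one]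
      have hside : p ≤ C.i ∨ C.l ≤ q := by
        by_contra hc
        push Not at hc
        have h1' : C.i ≤ q := by
          by_contra h1'
          exact C.fi (h2 C.i (by omega) (by omega))
        have h2' : p ≤ C.l := by
          by_contra h2'
          exact C.fl (h2 C.l (by omega) (by omega))
        have h3 : q = C.i := by
          by_contra h3
          exact h1 (C.hbt q (by omega) (by omega))
        have h4 : p = C.l := by
          by_contra h4
          exact hp (C.hbt p (by omega) (by omega))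
        exact h0 ⟨h3, h4⟩
      rcases hside with h3 | h3
      · rw [if_pos (by omega), if_pos (by omega)]
      · rw [if_neg (by omega), if_neg (by omega)]

theorem rel_code (γ : ℕ → ℕ → Bool) (j t : ℕ) :
    C.Rel γ C.q0 (3 * j) (3 * t + 1) ↔ γ j t = true := by
  unfold Rel
  rw [C.str_q0]
  have hnu : ∀ p, C.nu (C.wd (3 * t + 1) (3 * j) p) = C.W p := by
    intro p
    unfold wd
    split_ifs with h1 h2
    · rw [C.nu_B, h1.2.1]
    · rw [C.nu_C, h2.2.1]
    · exact C.nu_ι _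
  have h1 : (fun p : Fin C.n₀ => (C.vo γ).lam (C.wd (3 * t + 1) (3 * j)) p) =
      fun p : Fin C.n₀ => if (p : ℕ) < C.l then C.W p else C.kk (γ j t) (C.W p) := by
    funext p
    by_cases hp : Fx c (C.W p)
    · have h2 : (C.vo γ).Fx ((C.vo γ).ν (C.wd (3 * t + 1) (3 * j) p)) := by
        show Fx c (C.nu _)
        rw [hnu]
        exact hp
      rw [(C.ok γ).lam_fix h2]
      show C.nu _ = _
      rw [hnu, hp _ (C.kk_mem _)]
      simp
    · show (C.vo γ).tr _ _ (C.nu _) = _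
      rw [hnu, C.tr_code γ j t p hp]
      split_ifs <;> rfl
  rw [h1]
  unfold kk
  by_cases hr : γ j t = C.r0
  · rw [if_pos hr]
    have h2 : (fun p : Fin C.n₀ => if (p : ℕ) < C.l then C.W p else (1 : Equiv.Perm ℕ) (C.W p)) =
        fun p : Fin C.n₀ => C.W p := by
      funext p
      split_ifs <;> rfl
    rw [h2, hr]
    rfl
  · rw [if_neg hr]
    have h2 := C.hR
    have h3 : C.r0 ≠ c ⟨C.n₀, C.R₀, fun p => if (p : ℕ) < C.l then C.W p else C.g (C.W p)⟩ := h2
    revert hr h3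
    cases C.r0 <;> cases γ j t <;>
      cases c ⟨C.n₀, C.R₀, fun p => if (p : ℕ) < C.l then C.W p else C.g (C.W p)⟩ <;> simp

/-- comparison of two words at the place of the coding -/
theorem rel_comp {γ γ' : ℕ → ℕ → Bool} {m n m' n' : ℕ} (Rl : ℕ → ℕ → Prop)
    (hm : Rl m m') (hn : Rl n n') (hι : ∀ a, Rl (ι a) (ι a)) (hν : ∀ x x', Rl x x' → C.nu x = C.nu x')
    (hh : ∀ x x' y y', Rl x x' → Rl y y' → C.hv γ x y = C.hv γ' x' y') :
    C.Rel γ C.q0 n m ↔ C.Rel γ' C.q0 n' m' := by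
  unfold Rel
  rw [C.str_q0, C.str_q0]
  have h1 : (fun p : Fin C.n₀ => (C.vo γ).lam (C.wd m n) p) =
      fun p : Fin C.n₀ => (C.vo γ').lam (C.wd m' n') p := by
    funext p
    refine Volt.lam_rel (V := C.vo γ) (V' := C.vo γ') rfl Rl hν hh fun r _ => ?_
    unfold wd
    split_ifs
    · exact hm
    · exact hn
    · exact hι _
  rw [h1]

theorem rel_indep (γ γ' : ℕ → ℕ → Bool) {n : ℕ} (hn : n % 3 ≠ 0) (t : ℕ) :
    C.Rel γ C.q0 n (3 * t + 1) ↔ C.Rel γ' C.q0 n (3 * t + 1) := by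
  refine C.rel_comp (fun x x' => x = x' ∧ x % 3 ≠ 0) ⟨rfl, by omega⟩ ⟨rfl, hn⟩
    (fun a => ⟨rfl, by rw [ι_mod]; omega⟩) (fun x x' h => by rw [h.1]) ?_
  rintro x x' y y' ⟨rfl, hx⟩ ⟨rfl, hy⟩
  unfold hv
  split_ifs <;> first | rfl | omega

theorem rel_twins (γ : ℕ → ℕ → Bool) {j m : ℕ} (hm : m % 3 ≠ 1) (hj : ∀ l ≤ j, m ≠ 3 * l) :
    C.Rel γ C.q0 0 m ↔ C.Rel γ C.q0 (3 * j) m := by
  refine C.rel_comp (fun x x' => (x = x' ∧ x % 3 ≠ 1 ∧ ∀ l ≤ j, x ≠ 3 * l) ∨ (x = 0 ∧ x' = 3 * j))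
    (Or.inl ⟨rfl, hm, hj⟩) (Or.inr ⟨rfl, rfl⟩)
    (fun a => Or.inl ⟨rfl, by rw [ι_mod]; omega, fun l _ h => by
      have := ι_mod a
      omega⟩) ?_ ?_
  · rintro x x' (⟨rfl, -⟩ | ⟨rfl, rfl⟩)
    · rfl
    · rw [C.nu_0 rfl, C.nu_C]
  · have key : ∀ z, z % 3 ≠ 1 → (∀ l ≤ j, z ≠ 3 * l) → C.hv γ z 0 = C.hv γ z (3 * j) := by
      intro z h1 h2
      have h3 : z ≠ 0 := h2 0 (Nat.zero_le _)
      have h4 : z ≠ 3 * j := h2 j le_rfl
      have h5 : Lo z 0 ↔ Lo z (3 * j) := by
        unfold Lo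
        have h6 : z % 3 = 0 → 3 * j < z := by
          intro h6
          by_contra h7
          exact h2 (z / 3) (by omega) (by omega)
        constructor <;> omega
      unfold hv
      rw [if_neg h3, if_neg h4, C.nu_0 (x := 0) rfl, C.nu_C]
      simp only [h5]
      split_ifs <;> first | rfl | omega | (exfalso; tauto)
    rintro x x' y y' (⟨rfl, hx, hx'⟩ | ⟨rfl, rfl⟩) (⟨rfl, hy, hy'⟩ | ⟨rfl, rfl⟩)
    · rfl
    · exact key x hx hx'
    · rw [C.hv_anti γ y 0, C.hv_anti γ y (3 * j), key y hy hy']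
    · rw [C.hv_self, C.hv_self]

end Cfg

end Pool.Agent.H94.AF
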