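import Pool.Agent.H94.AF.Sem

/-!
The degenerate case: all transpositions of points in the same orbit are automorphisms.
-/

set_option autoImplicit false

namespace Pool.Agent.H94.AF

open scoped Classical
open Pool.Agent.H565R2.FO2 (Code Iso toI)

variable {L : FirstOrder.Language.{0, 0}}

/-- `a` is fixed by all automorphisms -/
def Fx (c : Code L) (a : ℕ) : Prop := ∀ g ∈ aut c, g a = a

theorem fx_aut {c : Code L} {g : Equiv.Perm ℕ} (hg : g ∈ aut c) (a : ℕ) : Fx c (g a) ↔ Fx c a := by
  constructor
  · intro h k hk
    have h1 := h (g * k * g⁻¹) ((aut c).mul_mem ((aut c).mul_mem hg hk) ((aut c).inv_mem hg))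
    have h2 : g (k a) = g a := by simpa [Equiv.Perm.mul_apply] using h1
    exact g.injective h2
  · intro h k hk
    rw [h g hg, h k hk]

/-- The place of the coding: the end of a word can be moved by an automorphism, and this changes
the truth value of a relation. -/
structure Cfg (c : Code L) where
  n₀ : ℕ
  R₀ : L.Relations n₀
  W : ℕ → ℕ
  i : ℕ
  l : ℕ
  g : Equiv.Perm ℕ
  hil : i < l
  hl : l < n₀
  fi : ¬ Fx c (W i)
  fl : ¬ Fx c (W l)
  hbt : ∀ r, i < r → r < l → Fx c (W r)
  hg : g ∈ aut c
  hne : W i ≠ W l
  hng : W i ≠ g (W l)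
  hR : c ⟨n₀, R₀, fun p => W p⟩ ≠ c ⟨n₀, R₀, fun p => if (p : ℕ) < l then W p else g (W p)⟩

/-- two words of the same pattern -/
def Pat (c : Code L) (n : ℕ) (W W' : ℕ → ℕ) : Prop :=
  (∀ p < n, ∃ g ∈ aut c, g (W p) = W' p) ∧
  ∀ p q, p < q → q < n → ¬ Fx c (W p) → ¬ Fx c (W q) → (∀ r, p < r → r < q → Fx c (W r)) →
    (W p = W q ↔ W' p = W' q)

theorem last_nf (c : Code L) (W : ℕ → ℕ) (m : ℕ) : (∀ r < m, Fx c (W r)) ∨
    ∃ i < m, ¬ Fx c (W i) ∧ ∀ r, i < r → r < m → Fx c (W r) := by
  induction m with
  | zero => left; intro r hr; omega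
  | succ m ih =>
    by_cases h : Fx c (W m)
    · rcases ih with h1 | ⟨i, hi, h1, h2⟩
      · left
        intro r hr
        rcases Nat.lt_succ_iff_lt_or_eq.1 hr with h2 | h2
        · exact h1 r h2
        · rw [h2]; exact h
      · refine Or.inr ⟨i, by omega, h1, fun r h3 h4 => ?_⟩
        rcases Nat.lt_succ_iff_lt_or_eq.1 h4 with h5 | h5
        · exact h2 r h3 h5
        · rw [h5]; exact h
    · exact Or.inr ⟨m, by omega, h, fun r h1 h2 => by omega⟩

theorem pat_eq {c : Code L} (hC : IsEmpty (Cfg c)) {n : ℕ} (R : L.Relations n) (m : ℕ) :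
    ∀ W W' : ℕ → ℕ, Pat c n W W' → (∀ p < n - m, W p = W' p) →
      c ⟨n, R, fun p => W p⟩ = c ⟨n, R, fun p => W' p⟩ := by
  induction m with
  | zero =>
    intro W W' _ h
    have : (fun p : Fin n => W p) = fun p : Fin n => W' p := funext fun p => h p (by omega)
    rw [this]
  | succ m ih =>
    intro W W' hP h
    by_cases hm : n ≤ m
    · exact ih W W' hP fun p hp => by omega
    · set k := n - (m + 1) with hk
      have hkn : k < n := by omega
      have hk1 : n - m = k + 1 := by omega
      by_cases hkk : W k = W' k
      · refine ih W W' hP fun p hp => ?_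
        rcases Nat.lt_succ_iff_lt_or_eq.1 (lt_of_lt_of_eq hp hk1) with h1 | h1
        · exact h p h1
        · rw [h1]; exact hkk
      · obtain ⟨g, hg, hgk⟩ := hP.1 k hkn
        have hnf : ¬ Fx c (W k) := fun hf => hkk (by rw [← hgk, hf g hg])
        let W'' : ℕ → ℕ := fun p => if p < k then W p else g (W p)
        have e1 : ∀ p < k, W'' p = W p := fun p hp => if_pos hp
        have e2 : ∀ p, k ≤ p → W'' p = g (W p) := fun p hp => if_neg (by omega)
        have e3 : ∀ p < n - m, W'' p = W' p := by
          intro p hp
          rcases Nat.lt_succ_iff_lt_or_eq.1 (lt_of_lt_of_eq hp hk1) with h1 | h1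
          · rw [e1 p h1, h p h1]
          · rw [h1, e2 k le_rfl, hgk]
        have e4 : ∀ p, Fx c (W'' p) ↔ Fx c (W p) := by
          intro p
          by_cases hp : p < k
          · rw [e1 p hp]
          · rw [e2 p (by omega), fx_aut hg]
        have hP2 : Pat c n W'' W' := by
          constructor
          · intro p hp
            by_cases hpk : p < k
            · rw [e1 p hpk]
              exact hP.1 p hp
            · obtain ⟨g', hg', h1⟩ := hP.1 p hp
              refine ⟨g' * g⁻¹, (aut c).mul_mem hg' ((aut c).inv_mem hg), ?_⟩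
              rw [e2 p (by omega), ← h1, Equiv.Perm.mul_apply]
              simp
          · intro p q hpq hqn h1 h2 h3
            rw [e4] at h1 h2
            have h3' : ∀ r, p < r → r < q → Fx c (W r) := fun r hr hr' => (e4 r).1 (h3 r hr hr')
            rcases lt_or_ge q k with hq | hq
            · rw [e1 p (by omega), e1 q hq]
              exact hP.2 p q hpq hqn h1 h2 h3'
            · rcases lt_or_ge p k with hp | hp
              · have hqk : q = k := by
                  by_contra hne
                  exact hnf (h3' k hp (by omega))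
                rw [e3 p (by omega), e3 q (by omega)]
              · rw [e2 p hp, e2 q hq, Equiv.apply_eq_iff_eq]
                exact hP.2 p q hpq hqn h1 h2 h3'
        rw [← ih W'' W' hP2 e3]
        rcases last_nf c W k with h1 | ⟨i, hi, h1, h2⟩
        · have e5 : (fun p : Fin n => W'' p) = fun p : Fin n => g (W p) := by
            funext p
            by_cases hp : (p : ℕ) < k
            · rw [e1 p hp, h1 p hp g hg]
            · rw [e2 p (by omega)]
          rw [e5]
          exact mem_aut.1 hg n R _
        · by_contra hR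
          have h3 : ¬ W i = W k := by
            intro h3
            have h4 := (hP.2 i k hi hkn h1 hnf h2).1 h3
            rw [← h i hi, h3] at h4
            exact hkk h4
          have h4 : ¬ W i = g (W k) := by
            intro h4
            rw [hgk, h i hi] at h4
            exact h3 ((hP.2 i k hi hkn h1 hnf h2).2 h4)
          exact hC.false {
            n₀ := n
            R₀ := R
            W := W
            i := i
            l := k
            g := g
            hil := hi
            hl := hkn
            fi := h1
            fl := hnf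
            hbt := h2
            hg := hg
            hne := h3
            hng := h4
            hR := hR }

/-- In the degenerate case the transpositions of points in the same orbit are automorphisms. -/
theorem deg_swap {c : Code L} (hC : IsEmpty (Cfg c)) {σ : ℕ ≃ ℕ} (hσ : σ ∈ aut c) (a : ℕ) :
    Equiv.swap a (σ a) ∈ aut c := by
  intro n R t
  let W : ℕ → ℕ := Pool.Agent.H94.FL.extv t
  have hW : ∀ p : Fin n, W p = t p := fun p => extv_lt t p
  have h1 := pat_eq hC R n W (fun p => Equiv.swap a (σ a) (W p)) ⟨fun p hp => ?_, ?_⟩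
    fun p hp => by omega
  · have e1 : (fun p : Fin n => W p) = t := funext hW
    have e2 : (fun p : Fin n => Equiv.swap a (σ a) (W p)) = fun p => Equiv.swap a (σ a) (t p) := by
      funext p
      rw [hW]
    rw [e1, e2] at h1
    exact h1
  · by_cases ha : W p = a
    · refine ⟨σ, hσ, ?_⟩
      show σ (W p) = Equiv.swap a (σ a) (W p)
      rw [ha, Equiv.swap_apply_left]
    · by_cases hb : W p = σ a
      · refine ⟨σ⁻¹, (aut c).inv_mem hσ, ?_⟩
        show σ⁻¹ (W p) = Equiv.swap a (σ a) (W p)
        rw [hb, Equiv.swap_apply_right]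
        simp
      · refine ⟨1, (aut c).one_mem, ?_⟩
        show W p = Equiv.swap a (σ a) (W p)
        rw [Equiv.swap_apply_of_ne_of_ne ha hb]
  · intro p q _ _ _ _ _
    exact (Equiv.apply_eq_iff_eq _).symm

end Pool.Agent.H94.AF
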