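import Pool.Agent.H94.AF.Sharp

/-!
One word which is not adjacent suffices for the full conjecture: the axioms.
-/

set_option autoImplicit false
set_option linter.unusedVariables false
set_option linter.unusedSectionVars false

namespace Pool.Agent.H94.AF

open FirstOrder FirstOrder.Language
open Pool.Agent.Y558.C3 (LE Sy vi X U Pr Rs Un Bi W I transfer cnt_jk exists_rep sem countable_LE)
open Pool.Agent.W889.FO (Vaught VaughtF vaughtF_iff SIso siso_of iso_rel)

variable {L : FirstOrder.Language.{0, 0}} {n₀ : ℕ}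

/-- tuples -/
abbrev VV (S : (LE L).Structure ℕ) (n u : ℕ) : Prop := Pool.Agent.Y558.C3.V S n u

section
variable {P : (n k : ℕ) → (Fin n → Fin k) → Prop}
  (hP : ∀ (n k : ℕ) (h : n ≤ k), P n k (suffix h))
  {k₀ : ℕ} {w : Fin n₀ → Fin k₀} (hw : P n₀ k₀ w) {p q : Fin n₀}
  (hpq : (q : ℕ) = p + 1) {a b : ℕ} (hab : a + 2 ≤ b)
  (hab' : (a = w p ∧ b = w q) ∨ (b = w p ∧ a = w q))

include hP hw hab hab'

/-- the axioms -/
theorem ax_W [L.IsRelational] :
    AxW P (Defs p q) (fun S : (LP L n₀).Structure ℕ => W (red S)) := by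
  have hb : b < b + 1 := Nat.lt_succ_self b
  have a1 : AxW P (Defs p q) (fun S : (LP L n₀).Structure ℕ =>
      ∀ n u, X (red S) u → ¬ VV (red S) n u) :=
    AxW.all fun n => AxW.of (D1.all (a := a) (D1.imp (e1_un hP Sy.X)
      (D1.not (e1_un hP (Sy.V n)))))
  have a2 : AxW P (Defs p q) (fun S : (LP L n₀).Structure ℕ =>
      ∀ n m, n ≠ m → ∀ u, VV (red S) n u → ¬ VV (red S) m u) := by
    refine AxW.all fun n => AxW.all fun m => ?_
    refine (AxW.of (D1.all (a := a) (D1.imp (D1.const (n ≠ m)) (D1.imp (e1_un hP (Sy.V n))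
      (D1.not (e1_un hP (Sy.V m))))))).congr fun S _ => ?_
    exact ⟨fun h hne u => h u hne, fun h u hne => h hne u⟩
  have a3 : AxW P (Defs p q) (fun S : (LP L n₀).Structure ℕ =>
      ∀ n i s x, Pr (red S) n i s x → VV (red S) n s ∧ X (red S) x) :=
    AxW.all fun n => AxW.all fun i => AxW.of (D1.all (a := a) (D2.all hP hab
      (D2.imp (e2_bi01 hP hw hab hab' (Sy.P n i)) (D2.and (e2_un0 hP hw hab hab' (Sy.V n))
        (e2_un1 hP hab Sy.X)))))
  have a4 : AxW P (Defs p q) (fun S : (LP L n₀).Structure ℕ =>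
      ∀ n φ s, U (red S) n φ s → VV (red S) n s) :=
    AxW.all fun n => AxW.all fun φ => AxW.of (D1.all (a := a) (D1.imp (e1_un hP (Sy.U n φ))
      (e1_un hP (Sy.V n))))
  have a5 : AxW P (Defs p q) (fun S : (LP L n₀).Structure ℕ =>
      ∀ n i s, VV (red S) n s → ∃ x, Pr (red S) n i s x) :=
    AxW.all fun n => AxW.all fun i => AxW.of (D1.all (a := a) (D1.imp (e1_un hP (Sy.V n))
      (D2.ex hP hab (e2_bi01 hP hw hab hab' (Sy.P n i)))))
  have a6 : AxW P (Defs p q) (fun S : (LP L n₀).Structure ℕ =>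
      ∀ n i s x y, Pr (red S) n i s x → Pr (red S) n i s y → x = y) :=
    (AxW.all fun n => AxW.all fun i => AxW.of (D1.all (a := a) (D2.all hP hab
      (D2.imp (e2_bi01 hP hw hab hab' (Sy.P n i)) (D3.all hab hb
        (D3.imp (e3_bi hw hab hab' (Sy.P n i)).1 (e3_eq12 hP hab))))))).congr fun S _ =>
      ⟨fun h n i s x y h1 h2 => h n i s x h1 y h2, fun h n i s x h1 y h2 => h n i s x y h1 h2⟩
  have a7 : AxW P (Defs p q) (fun S : (LP L n₀).Structure ℕ =>
      ∀ n s t, VV (red S) n s → VV (red S) n t →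
      (∀ i, ∃ x, Pr (red S) n i s x ∧ Pr (red S) n i t x) → s = t) :=
    AxW.all fun n => AxW.of (D1.all (a := a) (D2.all hP hab (D2.imp (e2_un0 hP hw hab hab' (Sy.V n))
      (D2.imp (e2_un1 hP hab (Sy.V n)) (D2.imp (D2.fin fun i => D3.ex hab hb
        (D3.and ((e3_bi hw hab hab' (Sy.P n i)).1) (e3_bi12 hP hab (Sy.P n i))))
        (e2_eq hP hw hab hab'))))))
  have a8 : AxW P (Defs p q) (fun S : (LP L n₀).Structure ℕ => ∃ s, VV (red S) 0 s) :=
    AxW.of (D1.ex (a := a) (e1_un hP (Sy.V 0)))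
  have a9 : AxW P (Defs p q) (fun S : (LP L n₀).Structure ℕ =>
      ∀ n s x, VV (red S) n s → X (red S) x →
        ∃ t, Rs (red S) n t s ∧ Pr (red S) (n + 1) (Fin.last n) t x) :=
    AxW.all fun n => AxW.of (D1.all (a := a) (D2.all hP hab (D2.imp (e2_un0 hP hw hab hab' (Sy.V n))
      (D2.imp (e2_un1 hP hab Sy.X) (D3.ex hab hb
        (D3.and (e3_bi hw hab hab' (Sy.R n)).2 (e3_bi21 hP hab (Sy.P (n + 1) (Fin.last n)))))))))
  have a10 : AxW P (Defs p q) (fun S : (LP L n₀).Structure ℕ =>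
      ∀ n t s, Rs (red S) n t s ↔ VV (red S) (n + 1) t ∧ VV (red S) n s ∧
      ∀ i : Fin n, ∃ x, Pr (red S) n i s x ∧ Pr (red S) (n + 1) i.castSucc t x) :=
    AxW.all fun n => AxW.of (D1.all (a := a) (D2.all hP hab (D2.iff (e2_bi01 hP hw hab hab' (Sy.R n))
      (D2.and (e2_un0 hP hw hab hab' (Sy.V (n + 1))) (D2.and (e2_un1 hP hab (Sy.V n))
        (D2.fin fun i => D3.ex hab hb (D3.and (e3_bi12 hP hab (Sy.P n i))
          ((e3_bi hw hab hab' (Sy.P (n + 1) i.castSucc)).1))))))))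
  have a11 : AxW P (Defs p q) (fun S : (LP L n₀).Structure ℕ =>
      ∀ n s, ¬ U (red S) n BoundedFormula.falsum s) :=
    AxW.all fun n => AxW.of (D1.all (a := a) (D1.not (e1_un hP (Sy.U n BoundedFormula.falsum))))
  have a12 : AxW P (Defs p q) (fun S : (LP L n₀).Structure ℕ =>
      ∀ n (t1 t2 : L.Term (Empty ⊕ Fin n)) s, U (red S) n (BoundedFormula.equal t1 t2) s ↔
        VV (red S) n s ∧ ∃ x, Pr (red S) n (vi t1) s x ∧ Pr (red S) n (vi t2) s x) :=
    AxW.all fun n => AxW.all fun t1 => AxW.all fun t2 => AxW.of (D1.all (a := a) (D1.iff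
      (e1_un hP (Sy.U n (BoundedFormula.equal t1 t2))) (D1.and (e1_un hP (Sy.V n))
        (D2.ex hP hab (D2.and (e2_bi01 hP hw hab hab' (Sy.P n (vi t1)))
          (e2_bi01 hP hw hab hab' (Sy.P n (vi t2))))))))
  have a13 : AxW P (Defs p q) (fun S : (LP L n₀).Structure ℕ =>
      ∀ (l : ℕ) (Q : L.Relations l) (n m : ℕ) (ts : Fin l → L.Term (Empty ⊕ Fin n))
      (ts' : Fin l → L.Term (Empty ⊕ Fin m)) (s t : ℕ), VV (red S) n s → VV (red S) m t →
      (∀ k, ∃ x, Pr (red S) n (vi (ts k)) s x ∧ Pr (red S) m (vi (ts' k)) t x) →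
      (U (red S) n (BoundedFormula.rel Q ts) s ↔ U (red S) m (BoundedFormula.rel Q ts') t)) :=
    AxW.all fun l => AxW.all fun Q => AxW.all fun n => AxW.all fun m => AxW.all fun ts =>
      AxW.all fun ts' => AxW.of (D1.all (a := a) (D2.all hP hab (D2.imp (e2_un0 hP hw hab hab' (Sy.V n))
        (D2.imp (e2_un1 hP hab (Sy.V m)) (D2.imp (D2.fin fun k => D3.ex hab hb
          (D3.and ((e3_bi hw hab hab' (Sy.P n (vi (ts k)))).1)
            (e3_bi12 hP hab (Sy.P m (vi (ts' k))))))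
          (D2.iff (e2_un0 hP hw hab hab' (Sy.U n (BoundedFormula.rel Q ts)))
            (e2_un1 hP hab (Sy.U m (BoundedFormula.rel Q ts')))))))))
  have a14 : AxW P (Defs p q) (fun S : (LP L n₀).Structure ℕ =>
      ∀ n (φ ψ : L.BoundedFormula Empty n) s, U (red S) n (BoundedFormula.imp φ ψ) s ↔
        VV (red S) n s ∧ (U (red S) n φ s → U (red S) n ψ s)) :=
    AxW.all fun n => AxW.all fun φ => AxW.all fun ψ => AxW.of (D1.all (a := a) (D1.iff
      (e1_un hP (Sy.U n (BoundedFormula.imp φ ψ))) (D1.and (e1_un hP (Sy.V n))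
        (D1.imp (e1_un hP (Sy.U n φ)) (e1_un hP (Sy.U n ψ))))))
  have a15 : AxW P (Defs p q) (fun S : (LP L n₀).Structure ℕ =>
      ∀ n (φ : L.BoundedFormula Empty (n + 1)) s, U (red S) n (BoundedFormula.all φ) s ↔
        VV (red S) n s ∧ ∀ t, Rs (red S) n t s → U (red S) (n + 1) φ t) :=
    AxW.all fun n => AxW.all fun φ => AxW.of (D1.all (a := a) (D1.iff
      (e1_un hP (Sy.U n (BoundedFormula.all φ))) (D1.and (e1_un hP (Sy.V n))
        (D2.all hP hab (D2.imp (e2_bi10 hP hw hab hab' (Sy.R n))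
          (e2_un1 hP hab (Sy.U (n + 1) φ)))))))
  have a16 : AxW P (Defs p q) (fun S : (LP L n₀).Structure ℕ =>
      ∀ m, ∃ s, VV (red S) m s ∧ ∀ i j : Fin m, i ≠ j →
        ¬ ∃ x, Pr (red S) m i s x ∧ Pr (red S) m j s x) :=
    AxW.all fun m => AxW.of (D1.ex (a := a) (D1.and (e1_un hP (Sy.V m)) (D1.fin fun i =>
      D1.fin fun j => D1.imp (D1.const (i ≠ j)) (D1.not (D2.ex hP hab
        (D2.and (e2_bi01 hP hw hab hab' (Sy.P m i)) (e2_bi01 hP hw hab hab' (Sy.P m j))))))))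
  refine ((a1.and (a2.and (a3.and (a4.and (a5.and (a6.and (a7.and a8))))))).and
    (a9.and (a10.and (a11.and (a12.and (a13.and (a14.and (a15.and a16)))))))).congr
    fun S _ => ⟨?_, ?_⟩
  · rintro ⟨⟨h1, h2, h3, h4, h5, h6, h7, h8⟩, h9, h10, h11, h12, h13, h14, h15, h16⟩
    exact ⟨h1, h2, h3, h4, h5, h6, h7, h8, h9, h10, h11, h12, h13, h14, h15, h16⟩
  · rintro ⟨h1, h2, h3, h4, h5, h6, h7, h8, h9, h10, h11, h12, h13, h14, h15, h16⟩
    exact ⟨⟨h1, h2, h3, h4, h5, h6, h7, h8⟩, h9, h10, h11, h12, h13, h14, h15, h16⟩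

/-- the models of a theory are recognised -/
theorem ax_T [L.IsRelational] (T : L.Theory) :
    AxW P (Defs p q) (fun S : (LP L n₀).Structure ℕ =>
      W (red S) ∧ @Theory.Model L ℕ ((I L).D (red S)) T) := by
  have h1 : AxW P (Defs p q) (fun S : (LP L n₀).Structure ℕ => ∀ (σ : T) s, VV (red S) 0 s →
      U (red S) 0 (σ.1 : L.BoundedFormula Empty 0) s) :=
    AxW.all fun σ => AxW.of (D1.all (a := a) (D1.imp (e1_un hP (Sy.V 0))
      (e1_un hP (Sy.U 0 σ.1))))
  refine ((ax_W hP hw hab hab').and h1).congr fun S _ => ?_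
  have key : ∀ (M : L.Structure ℕ) (σ : L.BoundedFormula Empty 0) (a b : Empty → ℕ)
      (a' b' : Fin 0 → ℕ), @BoundedFormula.Realize L ℕ M _ _ σ a a' →
        @BoundedFormula.Realize L ℕ M _ _ σ b b' := by
    intro M σ a b a' b'
    rw [Subsingleton.elim a b, Subsingleton.elim a' b']
    exact id
  constructor
  · rintro ⟨h, h2⟩
    refine ⟨h, (@Theory.model_iff L ℕ ((I L).D (red S)) T).2 fun σ hσ => ?_⟩
    obtain ⟨e, he⟩ := (I L).nth (S := red S) h
    obtain ⟨s, hs⟩ := h.v0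
    have h3 := (sem h he (σ : L.BoundedFormula Empty 0) s (fun i => i.elim0) hs
      fun i => i.elim0).1 (h2 ⟨σ, hσ⟩ s hs)
    exact key _ _ _ _ _ _ h3
  · rintro ⟨h, h2⟩
    refine ⟨h, fun σ s hs => ?_⟩
    obtain ⟨e, he⟩ := (I L).nth (S := red S) h
    refine (sem h he (σ.1 : L.BoundedFormula Empty 0) s (fun i => i.elim0) hs
      fun i => i.elim0).2 ?_
    have h3 := (@Theory.model_iff L ℕ ((I L).D (red S)) T).1 h2 σ.1 σ.2
    exact key _ _ _ _ _ _ h3

include hpq in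
/-- the reduction, for relational languages -/
theorem red_rel [L.IsRelational] [Countable (Σ n, L.Relations n)]
    (h : ∀ T' : (LP L n₀).Theory, (∀ σ ∈ T', InWords P (σ : (LP L n₀).BoundedFormula Empty 0)) →
      Vaught (LP L n₀) T') (T : L.Theory) : Vaught L T := by
  refine transfer (I L) cnt_jk T (fun M hM => ?_) fun T' hT' => ?_
  · obtain ⟨S, Θ, hS⟩ := exists_rep M
    exact ⟨S, hS.W, hS.D⟩
  · obtain ⟨T1, h1, h1'⟩ := ax_defs (L := L) hP hw hpq hab hab'
    obtain ⟨T2, h2, h2'⟩ := ax_T hP hw hab hab' T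
    refine vaught_red (p := p) (q := q) (T' := T1 ∪ T2) (fun S => ?_) (h (T1 ∪ T2) ?_)
    · constructor
      · intro h3
        have h4 : @Theory.Model (LP L n₀) ℕ S T1 :=
          (@Theory.model_iff _ ℕ S _).2 fun σ hσ =>
            (@Theory.model_iff _ ℕ S _).1 h3 σ (Or.inl hσ)
        have h5 : @Theory.Model (LP L n₀) ℕ S T2 :=
          (@Theory.model_iff _ ℕ S _).2 fun σ hσ =>
            (@Theory.model_iff _ ℕ S _).1 h3 σ (Or.inr hσ)
        have h6 := (h1' S trivial).1 h4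
        exact ⟨h6, (hT' _).2 ((h2' S h6).1 h5)⟩
      · rintro ⟨h3, h4⟩
        refine (@Theory.model_iff _ ℕ S _).2 fun σ hσ => ?_
        rcases hσ with hσ | hσ
        · exact (@Theory.model_iff _ ℕ S _).1 ((h1' S trivial).2 h3) σ hσ
        · exact (@Theory.model_iff _ ℕ S _).1 ((h2' S h3).2 ((hT' _).1 h4)) σ hσ
    · rintro σ (hσ | hσ)
      · exact h1 σ hσ
      · exact h2 σ hσ

end

/-- the language is countable -/
theorem countable_LP [L.IsRelational] [Countable (Σ n, L.Relations n)] :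
    Countable (LP L n₀).Symbols := by
  have h1 : Countable (LE L).Symbols := countable_LE
  have h2 : Countable (Σ n, Sy L n) := by
    refine Function.Injective.countable (β := (LE L).Symbols)
      (f := fun R : Σ n, Sy L n => (Sum.inr ⟨R.1, R.2⟩ : (LE L).Symbols)) ?_
    rintro ⟨n, R⟩ ⟨m, R'⟩ h
    exact Sum.inr_injective h
  have h3 : Countable (Σ n, SP L n₀ n) := by
    let g : (Σ n, Sy L n) ⊕ ((Σ n, Sy L n) × Option Bool) ⊕ Unit → Σ n, SP L n₀ n
      | .inl R => ⟨R.1, SP.base R.2⟩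
      | .inr (.inl (⟨2, R⟩, some d)) => ⟨n₀, SP.jp R d⟩
      | .inr (.inl (⟨2, R⟩, none)) => ⟨2, SP.iv R⟩
      | .inr (.inl (_, _)) => ⟨1, SP.base Sy.X⟩
      | .inr (.inr _) => ⟨n₀, SP.je⟩
    have hg : Function.Surjective g := by
      rintro ⟨n, R⟩
      cases R with
      | base R => exact ⟨.inl ⟨_, R⟩, rfl⟩
      | iv R => exact ⟨.inr (.inl (⟨2, R⟩, none)), rfl⟩
      | jp R d => exact ⟨.inr (.inl (⟨2, R⟩, some d)), rfl⟩
      | je => exact ⟨.inr (.inr ()), rfl⟩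
    exact hg.countable
  have h4 : IsEmpty (Σ n, (LP L n₀).Functions n) := ⟨fun p => Empty.elim p.2⟩
  exact inferInstanceAs (Countable ((Σ n, (LP L n₀).Functions n) ⊕ Σ n, SP L n₀ n))

theorem exists_jump {k₀ : ℕ} {w : Fin n₀ → Fin k₀} (hw : ¬ Adjacent w) :
    ∃ (p q : Fin n₀) (a b : ℕ), (q : ℕ) = p + 1 ∧ a + 2 ≤ b ∧
      ((a = w p ∧ b = w q) ∨ (b = w p ∧ a = w q)) := by
  unfold Adjacent at hw
  push Not at hw
  obtain ⟨i, j, h1, h2⟩ := hw
  by_cases h3 : (w i : ℕ) ≤ w j + 1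
  · exact ⟨i, j, w i, w j, h1, by have := h2 h3; omega, Or.inl ⟨rfl, rfl⟩⟩
  · exact ⟨i, j, w j, w i, h1, by omega, Or.inr ⟨rfl, rfl⟩⟩

/-- **Sharpness.** -/
theorem sharp {P : (n k : ℕ) → (Fin n → Fin k) → Prop}
    (hP : ∀ (n k : ℕ) (h : n ≤ k), P n k (suffix h))
    {k₀ : ℕ} (w : Fin n₀ → Fin k₀) (hw : P n₀ k₀ w) (hna : ¬ Adjacent w)
    (h : ∀ L : FirstOrder.Language.{0, 0}, Countable L.Symbols → ∀ [L.IsRelational],
      ∀ T : L.Theory, (∀ σ ∈ T, InWords P (σ : L.BoundedFormula Empty 0)) → VaughtF L T)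
    (L : FirstOrder.Language.{0, 0}) (hL : Countable L.Symbols) (T : L.Theory) :
    VaughtF L T := by
  obtain ⟨p, q, a, b, hpq, hab, hab'⟩ := exists_jump hna
  refine Pool.Agent.W889.FO.St0.reduce L (fun T1 => ?_) T
  have := Pool.Agent.W889.FO.St0.countable_LF (L := L)
  refine red_rel hP hw hpq hab hab' (fun T' hT' => ?_) T1
  exact (vaughtF_iff _ T').1 (h _ countable_LP T' hT')

end Pool.Agent.H94.AF
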