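import Pool.Agent.H94.AF.Sem
import Pool.Graph.R_seed8.Y558.C3.Red

/-!
First-order formulas in which only certain words occur in the atomic formulas, and predicates
definable by such formulas.
-/

set_option autoImplicit false
set_option linter.unusedVariables false

namespace Pool.Agent.H94.AF

open FirstOrder FirstOrder.Language

/-- The index of the variable which is the term (the language is relational). -/
def letter {L : FirstOrder.Language.{0, 0}} [L.IsRelational] {k : ℕ} :
    L.Term (Empty ⊕ Fin k) → Fin k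
  | .var (.inl e) => e.elim
  | .var (.inr i) => i
  | .func f _ => isEmptyElim f

/-- The first-order formula is built from atomic formulas `R x (f 0) ... x (f (n-1))` with
`P n k f`, where `k` is the number of variables in whose scope the atomic formula lies, and
equalities `x i = x j` for which the word `i j` is in `P`. -/
def InWords (P : (n k : ℕ) → (Fin n → Fin k) → Prop) {L : FirstOrder.Language.{0, 0}}
    [L.IsRelational] : ∀ {m : ℕ}, L.BoundedFormula Empty m → Prop
  | _, .falsum => True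
  | _, .equal t1 t2 => P 2 _ ![letter t1, letter t2]
  | _, .rel _ ts => P _ _ fun i => letter (ts i)
  | _, .imp φ ψ => InWords P φ ∧ InWords P ψ
  | _, .all φ => InWords P φ

variable {P : (n k : ℕ) → (Fin n → Fin k) → Prop} {L : FirstOrder.Language.{0, 0}}
  [L.IsRelational] {V : L.Structure ℕ → Prop} {k : ℕ}

/-- truth -/
abbrev Rz (S : L.Structure ℕ) {k : ℕ} (φ : L.BoundedFormula Empty k) (v : Fin k → ℕ) : Prop :=
  @BoundedFormula.Realize L ℕ S Empty k φ (fun e => e.elim) v

/-- definable predicates of the values of the first `k` variables -/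
def Dn (P : (n k : ℕ) → (Fin n → Fin k) → Prop) (V : L.Structure ℕ → Prop) (k : ℕ)
    (Q : L.Structure ℕ → (ℕ → ℕ) → Prop) : Prop :=
  ∃ φ : L.BoundedFormula Empty k, InWords P φ ∧
    ∀ S, V S → ∀ v : ℕ → ℕ, (Rz S φ (fun i => v i) ↔ Q S v)

variable {Q Q' : L.Structure ℕ → (ℕ → ℕ) → Prop}

theorem Dn.congr (h : Dn P V k Q) (h' : ∀ S, V S → ∀ v, (Q S v ↔ Q' S v)) : Dn P V k Q' := by
  obtain ⟨φ, h1, h2⟩ := h
  exact ⟨φ, h1, fun S hS v => (h2 S hS v).trans (h' S hS v)⟩

theorem Dn.fls : Dn P V k (fun _ _ => False) := ⟨.falsum, trivial, fun S _ v => Iff.rfl⟩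

theorem Dn.imp (h : Dn P V k Q) (h' : Dn P V k Q') : Dn P V k (fun S v => Q S v → Q' S v) := by
  obtain ⟨φ, h1, h2⟩ := h
  obtain ⟨φ', h1', h2'⟩ := h'
  exact ⟨.imp φ φ', ⟨h1, h1'⟩, fun S hS v => imp_congr (h2 S hS v) (h2' S hS v)⟩

theorem Dn.not (h : Dn P V k Q) : Dn P V k (fun S v => ¬ Q S v) := h.imp Dn.fls

theorem Dn.and (h : Dn P V k Q) (h' : Dn P V k Q') : Dn P V k (fun S v => Q S v ∧ Q' S v) :=
  (h.imp h'.not).not.congr fun S _ v => by tauto

theorem Dn.iff (h : Dn P V k Q) (h' : Dn P V k Q') : Dn P V k (fun S v => Q S v ↔ Q' S v) :=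
  ((h.imp h').and (h'.imp h)).congr fun S _ v => by tauto

theorem Dn.const (c : Prop) : Dn P V k (fun _ _ => c) := by
  by_cases h : c
  · exact (Dn.fls.not).congr fun S _ v => by simp [h]
  · exact Dn.fls.congr fun S _ v => by simp [h]

theorem Dn.fin {n : ℕ} {Q : Fin n → L.Structure ℕ → (ℕ → ℕ) → Prop}
    (h : ∀ i, Dn P V k (Q i)) : Dn P V k (fun S v => ∀ i, Q i S v) := by
  induction n with
  | zero => exact (Dn.const True).congr fun S _ v => ⟨fun _ i => i.elim0, fun _ => trivial⟩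
  | succ n ih =>
    refine ((ih fun i => h i.castSucc).and (h (Fin.last n))).congr fun S _ v => ?_
    constructor
    · rintro ⟨h1, h2⟩ i
      exact Fin.lastCases h2 h1 i
    · exact fun h => ⟨fun i => h _, h _⟩

theorem Dn.rel {n : ℕ} (R : L.Relations n) (f : Fin n → Fin k) (hf : P n k f) :
    Dn P V k (fun S v => @Structure.RelMap L ℕ S n R fun i => v (f i)) :=
  ⟨.rel R fun i => .var (.inr (f i)), hf, fun S _ v => Iff.rfl⟩

/-- The fluted words: the last `n` of `k` variables. -/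
def suffix {n k : ℕ} (h : n ≤ k) (i : Fin n) : Fin k := ⟨k - n + i, by omega⟩

theorem Dn.eq (hP : ∀ (n k : ℕ) (h : n ≤ k), P n k (suffix h)) (i : ℕ) :
    Dn P V (i + 2) (fun _ v => v i = v (i + 1)) := by
  refine ⟨.equal (.var (.inr ⟨i, by omega⟩)) (.var (.inr ⟨i + 1, by omega⟩)), ?_,
    fun S _ v => Iff.rfl⟩
  show P 2 _ ![⟨i, _⟩, ⟨i + 1, _⟩]
  have h1 := hP 2 (i + 2) (by omega)
  have e : (suffix (by omega) : Fin 2 → Fin (i + 2)) = ![⟨i, by omega⟩, ⟨i + 1, by omega⟩] := by
    funext m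
    fin_cases m
    · exact Fin.ext (by show i + 2 - 2 + 0 = i; omega)
    · exact Fin.ext (by show i + 2 - 2 + 1 = i + 1; omega)
  rw [e] at h1
  exact h1

theorem Dn.all (h : Dn P V (k + 1) Q) :
    Dn P V k (fun S v => ∀ a, Q S (Function.update v k a)) := by
  obtain ⟨φ, h1, h2⟩ := h
  refine ⟨.all φ, h1, fun S hS v => ?_⟩
  have key : ∀ a, (Fin.snoc (fun i : Fin k => v i) a : Fin (k + 1) → ℕ) =
      fun i : Fin (k + 1) => Function.update v k a i := by
    intro a
    funext i
    refine Fin.lastCases ?_ (fun i => ?_) i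
    · rw [Fin.snoc_last]
      simp
    · rw [Fin.snoc_castSucc, Function.update_of_ne]
      · rfl
      · have := i.2
        have h2 : (Fin.castSucc i : ℕ) = i := rfl
        omega
  show (∀ a, Rz S φ (Fin.snoc (fun i : Fin k => v i) a)) ↔ _
  refine forall_congr' fun a => ?_
  rw [key a]
  exact h2 S hS _

theorem Dn.dep (h : Dn P V k Q) {S : L.Structure ℕ} (hS : V S) {u v : ℕ → ℕ}
    (huv : ∀ t < k, u t = v t) : Q S u ↔ Q S v := by
  obtain ⟨φ, -, h2⟩ := h
  rw [← h2 S hS, ← h2 S hS]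
  have : (fun i : Fin k => u i) = fun i : Fin k => v i := funext fun i => huv i i.2
  rw [this]

theorem Dn.alls {m : ℕ} (hm : m ≤ k) (h : Dn P V k Q) :
    Dn P V m (fun S v => ∀ u : ℕ → ℕ, (∀ t < m, u t = v t) → Q S u) := by
  induction k, hm using Nat.le_induction generalizing Q with
  | base =>
    refine h.congr fun S hS v => ?_
    exact ⟨fun h1 u hu => (h.dep hS hu).2 h1, fun h1 => h1 v fun _ _ => rfl⟩
  | succ k hm ih =>
    refine (ih h.all).congr fun S hS v => ?_
    constructor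
    · intro h1 u hu
      have h2 := h1 u hu (u k)
      rwa [Function.update_eq_self] at h2
    · intro h1 u hu a
      refine h1 _ fun t ht => ?_
      rw [Function.update_of_ne (by omega)]
      exact hu t ht

/-- classes axiomatised by sentences with these words -/
def AxW (P : (n k : ℕ) → (Fin n → Fin k) → Prop) (V Z : L.Structure ℕ → Prop) : Prop :=
  ∃ T : L.Theory, (∀ σ ∈ T, InWords P (σ : L.BoundedFormula Empty 0)) ∧
    ∀ S, V S → (@Theory.Model L ℕ S T ↔ Z S)

theorem AxW.congr {Z Z' : L.Structure ℕ → Prop} (h : AxW P V Z)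
    (h' : ∀ S, V S → (Z S ↔ Z' S)) : AxW P V Z' := by
  obtain ⟨T, h1, h2⟩ := h
  exact ⟨T, h1, fun S hS => (h2 S hS).trans (h' S hS)⟩

theorem AxW.all {ι : Type} {Z : ι → L.Structure ℕ → Prop} (h : ∀ i, AxW P V (Z i)) :
    AxW P V (fun S => ∀ i, Z i S) := by
  choose T h1 h2 using h
  refine ⟨⋃ i, T i, fun σ hσ => ?_, fun S hS => ?_⟩
  · obtain ⟨i, hi⟩ := Set.mem_iUnion.1 hσ
    exact h1 i σ hi
  · constructor
    · intro h i
      refine (h2 i S hS).1 ((@Theory.model_iff L ℕ S _).2 fun σ hσ => ?_)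
      exact (@Theory.model_iff L ℕ S _).1 h σ (Set.mem_iUnion.2 ⟨i, hσ⟩)
    · intro h
      refine (@Theory.model_iff L ℕ S _).2 fun σ hσ => ?_
      obtain ⟨i, hi⟩ := Set.mem_iUnion.1 hσ
      exact (@Theory.model_iff L ℕ S _).1 ((h2 i S hS).2 (h i)) σ hi

theorem AxW.and {Z Z' : L.Structure ℕ → Prop} (h : AxW P V Z) (h' : AxW P V Z') :
    AxW P V (fun S => Z S ∧ Z' S) := by
  refine (AxW.all (ι := Bool) (Z := fun b S => cond b (Z S) (Z' S)) fun b => ?_).congr
    fun S _ => ?_
  · cases b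
    · exact h'
    · exact h
  · constructor
    · exact fun h => ⟨h true, h false⟩
    · rintro ⟨h1, h2⟩ b
      cases b
      · exact h2
      · exact h1

theorem AxW.of {Z : L.Structure ℕ → Prop} (h : Dn P V 0 (fun S _ => Z S)) : AxW P V Z := by
  obtain ⟨φ, h1, h2⟩ := h
  refine ⟨{φ}, fun σ hσ => ?_, fun S hS => ?_⟩
  · rw [Set.mem_singleton_iff.1 hσ]
    exact h1
  · have key : ∀ (a b : Empty → ℕ) (a' b' : Fin 0 → ℕ),
        (@BoundedFormula.Realize L ℕ S _ _ φ a a' ↔ @BoundedFormula.Realize L ℕ S _ _ φ b b') := by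
      intro a b a' b'
      rw [Subsingleton.elim a b, Subsingleton.elim a' b']
    refine Iff.trans ?_ (h2 S hS fun _ => 0)
    rw [@Theory.model_iff L ℕ S]
    constructor
    · intro h
      exact (key _ _ _ _).1 (h φ (Set.mem_singleton _))
    · intro h σ hσ
      rw [Set.mem_singleton_iff.1 hσ]
      exact (key _ _ _ _).2 h

end Pool.Agent.H94.AF
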