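import Pool.Agent.H94.AF.Code

/-!
The coding of an infinite sequence of bits, and its reading.
-/

set_option autoImplicit false

namespace Pool.Agent.H94.AF

open scoped Classical
open Pool.Agent.H565R2.FO2 (Code Iso toI)
open Pool.Agent.H565R2.LO2 (PerfK perfK_of_inv)
open Pool.Agent.H94.FL (extv)

variable {L : FirstOrder.Language.{0, 0}}

namespace Cfg

variable {c : Code L} (C : Cfg c)

/-- the row of the first special element -/
noncomputable def ro (t : ℕ) : Bool :=
  decide (¬ C.Rel (fun _ _ => false) C.q0 t.unpair.1 (3 * t + 1))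

/-- the number of the differences -/
def cc (j : ℕ) (b : Bool) : ℕ := (2 * j + (if b then 1 else 0) + 4) ^ 2

/-- the code of `x` -/
noncomputable def gm (x : ℕ → Bool) (j t : ℕ) : Bool :=
  match j with
  | 0 => C.ro t
  | j + 1 => xor (C.ro t) (decide (t < cc j (x j)))

theorem cc_win {i j : ℕ} {b : Bool} {n : ℕ} (h1 : cc j b ≤ n) (h2 : n ≤ cc j b + (j + 2))
    (h3 : cc i true ≤ n) (h4 : n ≤ cc i true + (i + 2)) : j = i ∧ b = true := by
  unfold cc at *
  simp only [if_true] at h3 h4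
  set k := 2 * j + (if b then 1 else 0) with hk
  have hkj : 2 * j ≤ k ∧ k ≤ 2 * j + 1 := by
    rw [hk]
    cases b <;> simp
  have hki : k = 2 * i + 1 := by
    rcases lt_trichotomy k (2 * i + 1) with h | h | h
    · exfalso
      have h5 : (k + 1 + 4) ^ 2 ≤ (2 * i + 1 + 4) ^ 2 := Nat.pow_le_pow_left (by omega) 2
      nlinarith
    · exact h
    · exfalso
      have h5 : (2 * i + 1 + 1 + 4) ^ 2 ≤ (k + 4) ^ 2 := Nat.pow_le_pow_left (by omega) 2
      nlinarith
  cases b with
  | true => simp only [if_true] at hk; exact ⟨by omega, rfl⟩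
  | false => simp only [Bool.false_eq_true, if_false] at hk; omega

/-- the set of the differences of two rows -/
def Dif (γ : ℕ → ℕ → Bool) (q : Fin C.n₀ → ℕ) (n n' : ℕ) : Set ℕ :=
  {m | ¬ (C.Rel γ q n m ↔ C.Rel γ q n' m)}

theorem dif_ns (x : ℕ → Bool) {n : ℕ} (hn : n % 3 ≠ 0) :
    (C.Dif (C.gm x) C.q0 n 0).Infinite := by
  refine Set.infinite_of_injective_forall_mem (f := fun i => 3 * Nat.pair n i + 1) ?_ fun i => ?_
  · intro i i' h
    have h1 : 3 * Nat.pair n i + 1 = 3 * Nat.pair n i' + 1 := h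
    have h2 : Nat.pair n i = Nat.pair n i' := by omega
    rw [Nat.pair_eq_pair] at h2
    exact h2.2
  · show ¬ _
    have h1 := C.rel_code (C.gm x) 0 (Nat.pair n i)
    rw [Nat.mul_zero] at h1
    rw [h1, C.rel_indep (C.gm x) (fun _ _ => false) hn]
    show ¬ (_ ↔ C.ro _ = true)
    unfold ro
    rw [decide_eq_true_iff, Nat.unpair_pair]
    tauto

theorem dif_self (γ : ℕ → ℕ → Bool) (q : Fin C.n₀ → ℕ) (n : ℕ) : C.Dif γ q n n = ∅ := by
  ext m
  simp [Dif]

theorem dif_sp (x : ℕ → Bool) (j : ℕ) : ∃ F : Finset ℕ, (∀ m, m ∈ F ↔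
    m ∈ C.Dif (C.gm x) C.q0 (3 * (j + 1)) 0) ∧
    cc j (x j) ≤ F.card ∧ F.card ≤ cc j (x j) + (j + 2) := by
  set e := cc j (x j) with he
  set G := ((Finset.range (j + 2)).image fun l => 3 * l).filter
    fun m => m ∈ C.Dif (C.gm x) C.q0 (3 * (j + 1)) 0 with hG
  set H := (Finset.range e).image fun t => 3 * t + 1 with hH
  have hHc : H.card = e := by
    rw [hH, Finset.card_image_of_injective _ fun a b h => by
      have h' : 3 * a + 1 = 3 * b + 1 := h
      omega, Finset.card_range]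
  have hGc : G.card ≤ j + 2 := by
    refine (Finset.card_filter_le _ _).trans (Finset.card_image_le.trans ?_)
    rw [Finset.card_range]
  have hGm : ∀ m, m ∈ G ↔ (∃ l < j + 2, 3 * l = m) ∧ m ∈ C.Dif (C.gm x) C.q0 (3 * (j + 1)) 0 := by
    intro m
    rw [hG, Finset.mem_filter, Finset.mem_image]
    simp only [Finset.mem_range]
  have hHm : ∀ m, m ∈ H ↔ ∃ t < e, 3 * t + 1 = m := by
    intro m
    rw [hH, Finset.mem_image]
    simp only [Finset.mem_range]
  have hdis : Disjoint G H := by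
    rw [Finset.disjoint_left]
    intro m hm hm'
    rw [hGm] at hm
    rw [hHm] at hm'
    obtain ⟨⟨l, -, h1⟩, -⟩ := hm
    obtain ⟨t, -, h2⟩ := hm'
    omega
  refine ⟨G ∪ H, fun m => ?_, ?_, ?_⟩
  · rw [Finset.mem_union, hGm, hHm]
    by_cases hm : m % 3 = 1
    · obtain ⟨t, rfl⟩ : ∃ t, m = 3 * t + 1 := ⟨m / 3, by omega⟩
      have h1 : ¬ ((∃ l < j + 2, 3 * l = 3 * t + 1) ∧
          3 * t + 1 ∈ C.Dif (C.gm x) C.q0 (3 * (j + 1)) 0) := by
        rintro ⟨⟨l, -, h⟩, -⟩
        omega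
      have h2 : (∃ t' < e, 3 * t' + 1 = 3 * t + 1) ↔ t < e := by
        constructor
        · rintro ⟨t', h, h'⟩
          have : t' = t := by omega
          rw [← this]
          exact h
        · intro h
          exact ⟨t, h, rfl⟩
      rw [h2]
      show _ ↔ ¬ _
      have h0 := C.rel_code (C.gm x) 0 t
      rw [Nat.mul_zero] at h0
      rw [C.rel_code, h0]
      have h3 : C.gm x (j + 1) t = xor (C.ro t) (decide (t < e)) := rfl
      have h4 : C.gm x 0 t = C.ro t := rfl
      rw [h3, h4]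
      by_cases h : t < e
      · simp only [h, or_true, decide_true, true_iff]
        cases C.ro t <;> simp
      · simp only [h, or_false, decide_false]
        cases C.ro t <;> simp [h1]
    · have h1 : ¬ ∃ t < e, 3 * t + 1 = m := by
        rintro ⟨t, -, h⟩
        omega
      simp only [h1, or_false]
      refine ⟨fun h => h.2, fun h => ⟨?_, h⟩⟩
      by_contra hc
      push Not at hc
      refine h (C.rel_twins _ hm fun l hl h' => hc l (by omega) h'.symm).symm
  · rw [Finset.card_union_of_disjoint hdis, hHc]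
    omega
  · rw [Finset.card_union_of_disjoint hdis, hHc]
    omega

/-- decoding -/
noncomputable def J (q : (Fin C.n₀ → ℕ) × ℕ) (x : ℕ → Bool) : ℕ → Bool := fun i =>
  decide (∃ (n : ℕ) (F : Finset ℕ), (cc i true ≤ F.card ∧ F.card ≤ cc i true + (i + 2)) ∧
    ∀ m, m ∈ F ↔ m ∈ C.Dif (C.gm x) q.1 n q.2)

theorem J_self (x : ℕ → Bool) : C.J (C.q0, 0) x = x := by
  funext i
  rw [Bool.eq_iff_iff]
  unfold J
  rw [decide_eq_true_iff]
  constructor
  · rintro ⟨n, F, ⟨hF1, hF2⟩, hF⟩
    by_cases hn : n % 3 = 0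
    · obtain ⟨j, rfl⟩ : ∃ j, n = 3 * j := ⟨n / 3, by omega⟩
      cases j with
      | zero =>
        exfalso
        have : F = ∅ := by
          ext m
          rw [hF, Nat.mul_zero, C.dif_self]
          simp
        rw [this, Finset.card_empty] at hF1
        unfold cc at hF1
        simp only [if_true] at hF1
        have : 0 < (2 * i + 1 + 4) ^ 2 := by positivity
        omega
      | succ j =>
        obtain ⟨F', hF', h1, h2⟩ := C.dif_sp x j
        have hFF : F = F' := by
          ext m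
          rw [hF, hF']
        rw [← hFF] at h1 h2
        obtain ⟨h3, h4⟩ := cc_win h1 h2 hF1 hF2
        rw [← h3]
        exact h4
    · exfalso
      refine C.dif_ns x hn ?_
      refine (F.finite_toSet).subset fun m hm => ?_
      exact Finset.mem_coe.2 ((hF m).2 hm)
  · intro hx
    obtain ⟨F, hF, h1, h2⟩ := C.dif_sp x i
    rw [hx] at h1 h2
    exact ⟨3 * (i + 1), F, ⟨h1, h2⟩, hF⟩

theorem J_iso {x y : ℕ → Bool} (f : ℕ ≃ ℕ)
    (hf : ∀ n (R : L.Relations n) (t : Fin n → ℕ),
      C.str (C.gm x) ⟨n, R, t⟩ = C.str (C.gm y) ⟨n, R, fun k => f (t k)⟩)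
    (q : (Fin C.n₀ → ℕ) × ℕ) : C.J q x = C.J (fun p => f (q.1 p), f q.2) y := by
  have hD : ∀ n m, f m ∈ C.Dif (C.gm y) (fun p => f (q.1 p)) (f n) (f q.2) ↔
      m ∈ C.Dif (C.gm x) q.1 n q.2 := by
    intro n m
    show ¬ _ ↔ ¬ _
    rw [C.rel_iso f hf, C.rel_iso f hf]
  funext i
  rw [Bool.eq_iff_iff]
  unfold J
  rw [decide_eq_true_iff, decide_eq_true_iff]
  constructor
  · rintro ⟨n, F, hF, h⟩
    refine ⟨f n, F.map f.toEmbedding, by rwa [Finset.card_map], fun m => ?_⟩
    obtain ⟨m, rfl⟩ := f.surjective m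
    rw [hD, ← h]
    simp
  · rintro ⟨n, F, hF, h⟩
    obtain ⟨n, rfl⟩ := f.surjective n
    refine ⟨n, F.map f.symm.toEmbedding, by rwa [Finset.card_map], fun m => ?_⟩
    rw [← hD, ← h]
    simp

theorem lc_gm (j t : ℕ) : IsLocallyConstant fun x : ℕ → Bool => C.gm x j t := by
  cases j with
  | zero => exact IsLocallyConstant.const _
  | succ j =>
    have h : IsLocallyConstant fun x : ℕ → Bool => x j :=
      (IsLocallyConstant.iff_continuous _).2 (continuous_apply j)
    exact h.comp fun b => xor (C.ro t) (decide (t < cc j b))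

theorem lc_hv (a b : ℕ) : IsLocallyConstant fun x : ℕ → Bool => C.hv (C.gm x) a b := by
  have h := (C.lc_gm (b / 3) (a / 3)).prodMk (C.lc_gm (a / 3) (b / 3))
  exact h.comp fun z : Bool × Bool =>
    if a = b then 1
    else if C.nu a = C.nu b then (if Lo a b then mv c (C.nu a) else (mv c (C.nu a))⁻¹)
    else if a % 3 = 1 ∧ b % 3 = 0 then C.kk z.1
    else if a % 3 = 0 ∧ b % 3 = 1 then (C.kk z.2)⁻¹
    else 1

/-- the second component of the state does not depend on the voltages -/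
noncomputable def s2 (w : ℕ → ℕ) (p : ℕ) : Option ℕ := ((C.vo fun _ _ => false).st w p).2

theorem st_snd (γ : ℕ → ℕ → Bool) (w : ℕ → ℕ) (p : ℕ) : ((C.vo γ).st w p).2 = C.s2 w p := by
  have key : ∀ (s s' : Equiv.Perm ℕ × Option ℕ) (y : ℕ), s.2 = s'.2 →
      ((C.vo γ).upd s y).2 = ((C.vo fun _ _ => false).upd s' y).2 := by
    intro s s' y h
    by_cases hy : Fx c (C.nu y)
    · rw [Volt.upd_fix (C.vo γ) (y := y) hy, Volt.upd_fix (C.vo fun _ _ => false) (y := y) hy, h]
    · rw [Volt.upd_nf (C.vo γ) (y := y) hy, Volt.upd_nf (C.vo fun _ _ => false) (y := y) hy]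
  induction p with
  | zero => exact key _ _ _ rfl
  | succ p ih => exact key _ _ _ ih

theorem lc_st (w : ℕ → ℕ) (p : ℕ) :
    IsLocallyConstant fun x : ℕ → Bool => (C.vo (C.gm x)).st w p := by
  have hupd : ∀ (s : (ℕ → Bool) → Equiv.Perm ℕ × Option ℕ) (o : Option ℕ) (y : ℕ),
      IsLocallyConstant s → (∀ x, (s x).2 = o) →
      IsLocallyConstant fun x : ℕ → Bool => (C.vo (C.gm x)).upd (s x) y := by
    intro s o y hs ho
    by_cases hy : Fx c (C.nu y)
    · have h1 : (fun x : ℕ → Bool => (C.vo (C.gm x)).upd (s x) y) = s := by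
        funext x
        exact Volt.upd_fix (C.vo (C.gm x)) hy
      rw [h1]
      exact hs
    · have h1 : (fun x : ℕ → Bool => (C.vo (C.gm x)).upd (s x) y) =
          fun x => ((s x).1 * (C.vo (C.gm x)).hh o y, some y) := by
        funext x
        rw [Volt.upd_nf (C.vo (C.gm x)) (y := y) hy, ho]
      rw [h1]
      cases o with
      | none =>
        exact hs.comp fun z : Equiv.Perm ℕ × Option ℕ => (z.1 * 1, some y)
      | some a =>
        exact (hs.prodMk (C.lc_hv a y)).comp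
          fun z : (Equiv.Perm ℕ × Option ℕ) × Equiv.Perm ℕ => (z.1.1 * z.2, some y)
  induction p with
  | zero => exact hupd (fun _ => (1, none)) none _ (IsLocallyConstant.const _) fun _ => rfl
  | succ p ih => exact hupd _ (C.s2 w p) _ ih fun x => C.st_snd _ _ _

theorem lc_lam (w : ℕ → ℕ) (p : ℕ) :
    IsLocallyConstant fun x : ℕ → Bool => (C.vo (C.gm x)).lam w p :=
  (C.lc_st w p).comp fun s => s.1 (C.nu (w p))

theorem lc_str (p : Σ n, L.Relations n × (Fin n → ℕ)) :
    IsLocallyConstant fun x : ℕ → Bool => C.str (C.gm x) p := by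
  have h1 : IsLocallyConstant fun x : ℕ → Bool =>
      (fun i : Fin p.1 => (C.vo (C.gm x)).lam (extv p.2.2) i) := by
    rw [IsLocallyConstant.iff_isOpen_fiber]
    intro y
    have h2 : {x : ℕ → Bool | (fun i : Fin p.1 => (C.vo (C.gm x)).lam (extv p.2.2) i) = y} =
        ⋂ i : Fin p.1, {x : ℕ → Bool | (C.vo (C.gm x)).lam (extv p.2.2) i = y i} := by
      ext x
      simp only [Set.mem_iInter, Set.mem_ofPred_eq]
      exact funext_iff
    show IsOpen {x : ℕ → Bool | (fun i : Fin p.1 => (C.vo (C.gm x)).lam (extv p.2.2) i) = y}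
    rw [h2]
    exact isOpen_iInter_of_finite fun i => (C.lc_lam (extv p.2.2) i).isOpen_fiber (y i)
  exact h1.comp fun t => c ⟨p.1, p.2.1, t⟩

theorem meas_rel (q : Fin C.n₀ → ℕ) (n m : ℕ) :
    Measurable fun x : ℕ → Bool => C.Rel (C.gm x) q n m := by
  refine measurable_to_prop ?_
  exact (((C.lc_str ⟨C.n₀, C.R₀, C.sub q m n⟩).comp fun b => b = true) {True}).measurableSet

theorem meas_J (q : (Fin C.n₀ → ℕ) × ℕ) : Measurable (C.J q) := by
  refine measurable_pi_lambda _ fun i => ?_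
  unfold J
  refine (Measurable.of_discrete (f := fun p : Prop => decide p)).comp ?_
  refine Measurable.exists fun n => Measurable.exists fun F => ?_
  refine (Measurable.and measurable_const ?_)
  refine Measurable.forall fun m => ?_
  refine Measurable.iff measurable_const ?_
  exact Measurable.not (Measurable.iff (C.meas_rel _ _ _) (C.meas_rel _ _ _))

theorem perf [∀ n, Countable (L.Relations n)] {K : Set (Code L)}
    (hK : ∀ γ, C.str γ ∈ K) : PerfK K := by
  refine perfK_of_inv (Y := ℕ → Bool) (Z := ℕ → Bool) (ι := (Fin C.n₀ → ℕ) × ℕ)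
    (fun x => C.str (C.gm x)) ?_ (fun x => hK _) C.J C.meas_J ?_ ?_
  · exact Continuous.measurable (continuous_pi fun p => (C.lc_str p).continuous)
  · rintro y y' ⟨g, hg⟩ q
    exact ⟨(fun p => g (q.1 p), g q.2), C.J_iso g hg q⟩
  · intro hc
    refine Pool.Agent.H565R2.FO2.Cfg.cantor_unc (hc.mono fun x _ => ?_)
    exact Set.mem_iUnion.2 ⟨(C.q0, 0), x, C.J_self x⟩

end Cfg

/-- The dichotomy for the adjacent fragment. -/
theorem main [Countable (Σ n, L.Relations n)] (K : Set (Code L)) (hK : MeasurableSet K)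
    (hi : ∀ c c' (σ : ℕ ≃ ℕ), Pool.Agent.H94.FL.IsoF c c' σ → c ∈ K → c' ∈ K)
    (hs : ∀ (V : Volt) (c : Code L), V.Ok (aut c) → c ∈ K → bl V c ∈ K) :
    (∃ g : ℕ → Code L, ∀ c ∈ K, ∃ n, Iso c (g n)) ∨ PerfK K := by
  have : ∀ n, Countable (L.Relations n) := fun n =>
    Function.Injective.countable (f := fun R : L.Relations n => (⟨n, R⟩ : Σ n, L.Relations n))
      sigma_mk_injective
  by_cases h : ∃ c ∈ K, Nonempty (Cfg c)
  · obtain ⟨c, hc, ⟨C⟩⟩ := h
    exact Or.inr (C.perf fun γ => hs _ _ (C.ok γ) hc)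
  · push Not at h
    refine Pool.Agent.H94.FL.swap_dich K hK hi fun c hc σ hσ a => ?_
    exact deg_swap (h c hc) (σ := σ) hσ a

end Pool.Agent.H94.AF
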