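import Pool.Agent.H94.AF.Lv

/-!
Three variables, in the places `a`, `a + 1` and `b` of the prefix.
-/

set_option autoImplicit false
set_option linter.unusedVariables false

namespace Pool.Agent.H94.AF

open FirstOrder FirstOrder.Language

variable {P : (n k : ℕ) → (Fin n → Fin k) → Prop} {L : FirstOrder.Language.{0, 0}}
  [L.IsRelational] {V : L.Structure ℕ → Prop}

/-- the variables between `a` and `b` have the same value -/
def Ch (a b : ℕ) (v : ℕ → ℕ) : Prop := ∀ t, a + 1 ≤ t → t + 1 < b → v t = v (t + 1)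

theorem Ch.eq {a b : ℕ} {v : ℕ → ℕ} (h : Ch a b v) {t : ℕ} (h1 : a + 1 ≤ t) (h2 : t < b) :
    v t = v (a + 1) := by
  induction t, h1 using Nat.le_induction with
  | base => rfl
  | succ t h1 ih => rw [← h t h1 h2, ih (by omega)]

def D3 (P : (n k : ℕ) → (Fin n → Fin k) → Prop) (V : L.Structure ℕ → Prop) (a b k : ℕ)
    (Q : L.Structure ℕ → ℕ → ℕ → ℕ → Prop) : Prop :=
  ∃ Q', Dn P V k Q' ∧ ∀ S, V S → ∀ v, Ch a b v → (Q' S v ↔ Q S (v a) (v (a + 1)) (v b))

def D2 (P : (n k : ℕ) → (Fin n → Fin k) → Prop) (V : L.Structure ℕ → Prop) (a b : ℕ)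
    (Q : L.Structure ℕ → ℕ → ℕ → Prop) : Prop :=
  ∃ Q', Dn P V b Q' ∧ ∀ S, V S → ∀ v, Ch a b v → (Q' S v ↔ Q S (v a) (v (a + 1)))

def D1 (P : (n k : ℕ) → (Fin n → Fin k) → Prop) (V : L.Structure ℕ → Prop) (a : ℕ)
    (Q : L.Structure ℕ → ℕ → Prop) : Prop := Dn P V (a + 1) fun S v => Q S (v a)

variable {a b k : ℕ}

section
variable {Q Q' : L.Structure ℕ → ℕ → ℕ → ℕ → Prop}

theorem D3.congr (h : D3 P V a b k Q) (h' : ∀ S, V S → ∀ x y z, (Q S x y z ↔ Q' S x y z)) :
    D3 P V a b k Q' := by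
  obtain ⟨Q0, h1, h2⟩ := h
  exact ⟨Q0, h1, fun S hS v hv => (h2 S hS v hv).trans (h' S hS _ _ _)⟩

theorem D3.imp (h : D3 P V a b k Q) (h' : D3 P V a b k Q') :
    D3 P V a b k (fun S x y z => Q S x y z → Q' S x y z) := by
  obtain ⟨Q0, h1, h2⟩ := h
  obtain ⟨Q0', h1', h2'⟩ := h'
  exact ⟨_, h1.imp h1', fun S hS v hv => imp_congr (h2 S hS v hv) (h2' S hS v hv)⟩

theorem D3.const (c : Prop) : D3 P V a b k (fun _ _ _ _ => c) :=
  ⟨_, Dn.const c, fun S _ v _ => Iff.rfl⟩

theorem D3.not (h : D3 P V a b k Q) : D3 P V a b k (fun S x y z => ¬ Q S x y z) :=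
  h.imp (D3.const False)

theorem D3.and (h : D3 P V a b k Q) (h' : D3 P V a b k Q') :
    D3 P V a b k (fun S x y z => Q S x y z ∧ Q' S x y z) :=
  (h.imp h'.not).not.congr fun S _ x y z => by tauto

end

section
variable {Q Q' : L.Structure ℕ → ℕ → ℕ → Prop}

theorem D2.congr (h : D2 P V a b Q) (h' : ∀ S, V S → ∀ x y, (Q S x y ↔ Q' S x y)) :
    D2 P V a b Q' := by
  obtain ⟨Q0, h1, h2⟩ := h
  exact ⟨Q0, h1, fun S hS v hv => (h2 S hS v hv).trans (h' S hS _ _)⟩

theorem D2.imp (h : D2 P V a b Q) (h' : D2 P V a b Q') :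
    D2 P V a b (fun S x y => Q S x y → Q' S x y) := by
  obtain ⟨Q0, h1, h2⟩ := h
  obtain ⟨Q0', h1', h2'⟩ := h'
  exact ⟨_, h1.imp h1', fun S hS v hv => imp_congr (h2 S hS v hv) (h2' S hS v hv)⟩

theorem D2.const (c : Prop) : D2 P V a b (fun _ _ _ => c) :=
  ⟨_, Dn.const c, fun S _ v _ => Iff.rfl⟩

theorem D2.not (h : D2 P V a b Q) : D2 P V a b (fun S x y => ¬ Q S x y) :=
  h.imp (D2.const False)

theorem D2.and (h : D2 P V a b Q) (h' : D2 P V a b Q') :
    D2 P V a b (fun S x y => Q S x y ∧ Q' S x y) :=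
  (h.imp h'.not).not.congr fun S _ x y => by tauto

theorem D2.iff (h : D2 P V a b Q) (h' : D2 P V a b Q') :
    D2 P V a b (fun S x y => Q S x y ↔ Q' S x y) :=
  ((h.imp h').and (h'.imp h)).congr fun S _ x y => by tauto

theorem D2.fin {n : ℕ} {Q : Fin n → L.Structure ℕ → ℕ → ℕ → Prop}
    (h : ∀ i, D2 P V a b (Q i)) : D2 P V a b (fun S x y => ∀ i, Q i S x y) := by
  choose Q0 h1 h2 using h
  exact ⟨_, Dn.fin h1, fun S hS v hv => forall_congr' fun i => h2 i S hS v hv⟩

end

section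
variable {Q Q' : L.Structure ℕ → ℕ → Prop}

theorem D1.congr (h : D1 P V a Q) (h' : ∀ S, V S → ∀ x, (Q S x ↔ Q' S x)) : D1 P V a Q' :=
  Dn.congr h fun S hS v => h' S hS _

theorem D1.imp (h : D1 P V a Q) (h' : D1 P V a Q') : D1 P V a (fun S x => Q S x → Q' S x) :=
  Dn.imp h h'

theorem D1.const (c : Prop) : D1 P V a (fun _ _ => c) := Dn.const c

theorem D1.not (h : D1 P V a Q) : D1 P V a (fun S x => ¬ Q S x) := Dn.not h

theorem D1.and (h : D1 P V a Q) (h' : D1 P V a Q') : D1 P V a (fun S x => Q S x ∧ Q' S x) :=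
  Dn.and h h'

theorem D1.iff (h : D1 P V a Q) (h' : D1 P V a Q') : D1 P V a (fun S x => Q S x ↔ Q' S x) :=
  Dn.iff h h'

theorem D1.fin {n : ℕ} {Q : Fin n → L.Structure ℕ → ℕ → Prop}
    (h : ∀ i, D1 P V a (Q i)) : D1 P V a (fun S x => ∀ i, Q i S x) := Dn.fin h

end

theorem D3.all {Q : L.Structure ℕ → ℕ → ℕ → ℕ → Prop} (hab : a + 2 ≤ b) (hbk : b < k)
    (h : D3 P V a b k Q) : D2 P V a b (fun S x y => ∀ z, Q S x y z) := by
  obtain ⟨Q', h1, h2⟩ := h
  refine ⟨_, h1.alls hbk.le, fun S hS v hv => ?_⟩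
  have hc : ∀ u : ℕ → ℕ, (∀ t < b, u t = v t) → Ch a b u := fun u hu t h3 h4 => by
    rw [hu t (by omega), hu (t + 1) h4, hv t h3 h4]
  constructor
  · intro h3 z
    have hu : ∀ t < b, Function.update v b z t = v t := fun t ht =>
      Function.update_of_ne (by omega) _ _
    have h4 := (h2 S hS _ (hc _ hu)).1 (h3 _ hu)
    rwa [hu a (by omega), hu (a + 1) (by omega), Function.update_self] at h4
  · intro h3 u hu
    rw [h2 S hS u (hc u hu), hu a (by omega), hu (a + 1) (by omega)]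
    exact h3 _

theorem D3.ex {Q : L.Structure ℕ → ℕ → ℕ → ℕ → Prop} (hab : a + 2 ≤ b) (hbk : b < k)
    (h : D3 P V a b k Q) : D2 P V a b (fun S x y => ∃ z, Q S x y z) :=
  (h.not.all hab hbk).not.congr fun S _ x y => by push Not; rfl

theorem Dn.chain (hP : ∀ (n k : ℕ) (h : n ≤ k), P n k (suffix h))
    {Q : L.Structure ℕ → (ℕ → ℕ) → Prop} (hab : a + 2 ≤ b) (h : Dn P V b Q) :
    Dn P V (a + 2) (fun S v => ∀ u : ℕ → ℕ, (∀ t < a + 2, u t = v t) → Ch a b u → Q S u) := by
  induction b, hab using Nat.le_induction generalizing Q with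
  | base =>
    refine h.congr fun S hS v => ?_
    constructor
    · intro h1 u hu _
      exact (h.dep hS hu).2 h1
    · intro h1
      exact h1 v (fun _ _ => rfl) fun t h2 h3 => by omega
  | succ b hab ih =>
    obtain ⟨b, rfl⟩ : ∃ b', b = b' + 1 := ⟨b - 1, by omega⟩
    have h1 := ((Dn.eq (V := V) hP b).imp h).all
    refine (ih h1).congr fun S hS v => ?_
    constructor
    · intro h2 u hu hc
      have h3 := h2 u hu (fun t h3 h4 => hc t h3 (by omega)) (u (b + 1))
      rw [Function.update_eq_self] at h3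
      exact h3 (hc b (by omega) (by omega))
    · intro h2 u hu hc z hz
      rw [Function.update_of_ne (by omega), Function.update_self] at hz
      refine h2 _ (fun t ht => ?_) fun t h3 h4 => ?_
      · rw [Function.update_of_ne (by omega)]
        exact hu t ht
      · rw [Function.update_of_ne (by omega)]
        rcases Nat.lt_or_ge (t + 1) (b + 1) with h5 | h5
        · rw [Function.update_of_ne (by omega)]
          exact hc t h3 h5
        · have h6 : t = b := by omega
          subst h6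
          rw [Function.update_self]
          exact hz

theorem D2.all {Q : L.Structure ℕ → ℕ → ℕ → Prop}
    (hP : ∀ (n k : ℕ) (h : n ≤ k), P n k (suffix h)) (hab : a + 2 ≤ b)
    (h : D2 P V a b Q) : D1 P V a (fun S x => ∀ y, Q S x y) := by
  obtain ⟨Q', h1, h2⟩ := h
  refine ((h1.chain hP hab).all).congr fun S hS v => ?_
  constructor
  · intro h3 y
    let u : ℕ → ℕ := fun t => if t < a + 1 then v t else y
    have e1 : u a = v a := if_pos (by omega)
    have e2 : u (a + 1) = y := if_neg (by omega)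
    have hc : Ch a b u := fun t h4 h5 => by
      show (if t < a + 1 then v t else y) = (if t + 1 < a + 1 then v (t + 1) else y)
      rw [if_neg (by omega), if_neg (by omega)]
    have h4 := (h2 S hS u hc).1 (h3 y u (fun t ht => by
      rcases Nat.lt_or_ge t (a + 1) with h5 | h5
      · rw [Function.update_of_ne (by omega)]
        exact if_pos h5
      · have h6 : t = a + 1 := by omega
        subst h6
        rw [Function.update_self]
        exact e2) hc)
    rwa [e1, e2] at h4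
  · intro h3 y u hu hc
    rw [h2 S hS u hc, hu a (by omega), Function.update_of_ne (by omega)]
    exact h3 _

theorem D2.ex {Q : L.Structure ℕ → ℕ → ℕ → Prop}
    (hP : ∀ (n k : ℕ) (h : n ≤ k), P n k (suffix h)) (hab : a + 2 ≤ b)
    (h : D2 P V a b Q) : D1 P V a (fun S x => ∃ y, Q S x y) :=
  (h.not.all hP hab).not.congr fun S _ x => by push Not; rfl

theorem D1.all {Q : L.Structure ℕ → ℕ → Prop} (h : D1 P V a Q) :
    Dn P V 0 (fun S _ => ∀ x, Q S x) := by
  refine (Dn.alls (m := 0) (Nat.zero_le _) h).congr fun S hS v => ?_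
  exact ⟨fun h1 x => h1 (fun _ => x) (fun t ht => by omega), fun h1 u _ => h1 _⟩

theorem D1.ex {Q : L.Structure ℕ → ℕ → Prop} (h : D1 P V a Q) :
    Dn P V 0 (fun S _ => ∃ x, Q S x) :=
  (h.not.all).not.congr fun S _ _ => by push Not; rfl

variable (hP : ∀ (n k : ℕ) (h : n ≤ k), P n k (suffix h))

section
include hP

theorem Dn.un (U : L.Relations 1) (i : ℕ) :
    Dn P V (i + 1) (fun S v => @Structure.RelMap L ℕ S 1 U fun _ => v i) := by
  refine (Dn.rel U _ (hP 1 (i + 1) (by omega))).congr fun S _ v => ?_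
  have : (fun m : Fin 1 => v (suffix (k := i + 1) (by omega) m)) = fun _ => v i := by
    funext m
    congr 1
    show i + 1 - 1 + (m : ℕ) = i
    omega
  rw [this]

theorem Dn.bi (R : L.Relations 2) (i : ℕ) :
    Dn P V (i + 2) (fun S v => @Structure.RelMap L ℕ S 2 R ![v i, v (i + 1)]) := by
  refine (Dn.rel R _ (hP 2 (i + 2) (by omega))).congr fun S _ v => ?_
  have : (fun m : Fin 2 => v (suffix (k := i + 2) (by omega) m)) = ![v i, v (i + 1)] := by
    funext m
    fin_cases m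
    · show v (i + 2 - 2 + 0) = v i
      congr 1
    · show v (i + 2 - 2 + 1) = v (i + 1)
      congr 1
  rw [this]

theorem Dn.id {n : ℕ} (R : L.Relations n) :
    Dn P V n (fun S v => @Structure.RelMap L ℕ S n R fun i => v i) := by
  refine (Dn.rel R _ (hP n n le_rfl)).congr fun S _ v => ?_
  have : (fun m : Fin n => v (suffix (k := n) le_rfl m)) = fun m : Fin n => v m := by
    funext m
    congr 1
    show n - n + (m : ℕ) = m
    omega
  rw [this]

end

end Pool.Agent.H94.AF
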