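import Pool.Agent.H94.AF.Volt
import Pool.Agent.H94.FL.Rigid
import Pool.Graph.R_seed8.H834V.Adapt

/-!
The adjacent fragment with equality, and the new structures given by names and voltages, which
satisfy the same sentences of the adjacent fragment.
-/

set_option autoImplicit false

namespace Pool.Agent.H94.AF

open scoped Classical
open Pool.Agent.H565R2.FO2 (Code Iso toI)
open Pool.Agent.H94.FL (extv)

/-- Neighbouring letters of the word `f` differ by at most one. -/
def Adjacent {n k : ℕ} (f : Fin n → Fin k) : Prop :=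
  ∀ i j : Fin n, (j : ℕ) = i + 1 → (f i : ℕ) ≤ f j + 1 ∧ (f j : ℕ) ≤ f i + 1

/-- Infinitary formulas of the adjacent fragment in the variables `x 0, ..., x (k-1)`, where
variables can be used again. -/
inductive Adj (L : FirstOrder.Language.{0, 0}) : ℕ → Type
  /-- The atomic formula `R x (f 0) ... x (f (n-1))`, where the indices of neighbouring arguments
  differ by at most one. -/
  | rel {k n : ℕ} (R : L.Relations n) (f : Fin n → Fin k) (hf : Adjacent f) : Adj L k
  /-- The atomic formula `x i = x j`, where `i` and `j` differ by at most one. -/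
  | eq {k : ℕ} (i j : Fin k) (h : (i : ℕ) ≤ j + 1 ∧ (j : ℕ) ≤ i + 1) : Adj L k
  /-- Negation. -/
  | neg {k : ℕ} (φ : Adj L k) : Adj L k
  /-- Conjunction of the formulas `φ 0, φ 1, ...`. -/
  | inf {k : ℕ} (φ : ℕ → Adj L k) : Adj L k
  /-- The formula `∃ x k, φ`. -/
  | ex {k : ℕ} (φ : Adj L (k + 1)) : Adj L k
  /-- The formula `φ (x (f 0), ..., x (f (m-1)))`. -/
  | sub {k m : ℕ} (f : Fin m → Fin k) (hf : Adjacent f) (φ : Adj L m) : Adj L k

/-- The formula is true in the structure for the values `v 0, ..., v (k-1)` of the variables. -/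
def Sat {L : FirstOrder.Language.{0, 0}} (S : (n : ℕ) → L.Relations n → (Fin n → ℕ) → Prop) :
    {k : ℕ} → Adj L k → (Fin k → ℕ) → Prop
  | _, .rel (n := n) R f _, v => S n R fun i => v (f i)
  | _, .eq i j _, v => v i = v j
  | _, .neg φ, v => ¬ Sat S φ v
  | _, .inf φ, v => ∀ i, Sat S (φ i) v
  | _, .ex φ, v => ∃ a : ℕ, Sat S φ (Fin.snoc v a)
  | _, .sub f _ φ, v => Sat S φ fun i => v (f i)

variable {L : FirstOrder.Language.{0, 0}}

/-- the automorphism group -/
def aut (c : Code L) : Subgroup (Equiv.Perm ℕ) where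
  carrier := {g | ∀ n (R : L.Relations n) (t : Fin n → ℕ), c ⟨n, R, t⟩ = c ⟨n, R, fun k => g (t k)⟩}
  one_mem' := fun n R t => rfl
  mul_mem' := by
    intro a b ha hb n R t
    rw [hb, ha]
    rfl
  inv_mem' := by
    intro a ha n R t
    rw [ha n R fun k => a⁻¹ (t k)]
    simp

theorem mem_aut {c : Code L} {g : Equiv.Perm ℕ} : g ∈ aut c ↔
    ∀ n (R : L.Relations n) (t : Fin n → ℕ), c ⟨n, R, t⟩ = c ⟨n, R, fun k => g (t k)⟩ := Iff.rfl

/-- the new structure -/
noncomputable def bl (V : Volt) (c : Code L) : Code L :=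
  fun p => c ⟨p.1, p.2.1, fun i => V.lam (extv p.2.2) i⟩

theorem extv_lt {n : ℕ} (v : Fin n → ℕ) (j : Fin n) : extv v j = v j := by
  unfold extv
  rw [dif_pos j.2]

theorem extv_snoc {k : ℕ} (v : Fin k → ℕ) (y : ℕ) {p : ℕ} (hp : p ≤ k) :
    extv (Fin.snoc v y : Fin (k + 1) → ℕ) p = Function.update (extv v) k y p := by
  by_cases h : p = k
  · subst h
    rw [Function.update_self]
    unfold extv
    rw [dif_pos (Nat.lt_succ_self _)]
    have : (⟨p, Nat.lt_succ_self p⟩ : Fin (p + 1)) = Fin.last p := rfl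
    rw [this, Fin.snoc_last]
  · rw [Function.update_of_ne h]
    have h1 : p < k := by omega
    unfold extv
    rw [dif_pos (by omega), dif_pos h1]
    have : (⟨p, by omega⟩ : Fin (k + 1)) = Fin.castSucc ⟨p, h1⟩ := rfl
    rw [this, Fin.snoc_castSucc]

/-- The reading of a subword. -/
theorem lam_sub {V : Volt} {c : Code L} (hV : V.Ok (aut c)) {k n : ℕ} (f : Fin n → Fin k)
    (hf : Adjacent f) {v u : Fin k → ℕ} {g : Equiv.Perm ℕ} (hg : g ∈ aut c)
    (hv : ∀ i : Fin k, v i = g (V.lam (extv u) i)) :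
    ∃ g' ∈ aut c, ∀ i : Fin n, v (f i) = g' (V.lam (extv fun i => u (f i)) i) := by
  let F : ℕ → ℕ := fun t => if h : t < n then f ⟨t, h⟩ else 0
  have hF : ∀ t (h : t < n), F t = f ⟨t, h⟩ := fun t h => dif_pos h
  obtain ⟨g', hg', h1⟩ := hV.walk (extv u) F (n - 1) fun t ht => by
    rw [hF t (by omega), hF (t + 1) (by omega)]
    exact hf ⟨t, by omega⟩ ⟨t + 1, by omega⟩ rfl
  refine ⟨g * g'⁻¹, (aut c).mul_mem hg ((aut c).inv_mem hg'), fun i => ?_⟩
  have h3 : V.lam (extv fun i => u (f i)) i = V.lam (fun t => extv u (F t)) i := by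
    refine V.lam_congr fun p hp => ?_
    have hp' : p < n := lt_of_le_of_lt hp i.2
    have e1 := extv_lt (fun i => u (f i)) ⟨p, hp'⟩
    rw [hF p hp', extv_lt]
    exact e1
  rw [h3, h1 i (by omega), hF i i.2, hv, Equiv.Perm.mul_apply]
  simp

theorem sat_bl {V : Volt} {c : Code L} (hV : V.Ok (aut c)) {k : ℕ} (φ : Adj L k) :
    ∀ v u : Fin k → ℕ, ∀ g ∈ aut c, (∀ i : Fin k, v i = g (V.lam (extv u) i)) →
      (Sat (toI c) φ v ↔ Sat (toI (bl V c)) φ u) := by
  induction φ with
  | @rel k n R f hf =>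
    intro v u g hg hv
    show c ⟨n, R, fun i => v (f i)⟩ = true ↔ c ⟨n, R, fun i => V.lam (extv fun i => u (f i)) i⟩ = true
    obtain ⟨g', hg', h1⟩ := lam_sub hV f hf hg hv
    have h2 : (fun i : Fin n => v (f i)) =
        fun i : Fin n => g' (V.lam (extv fun i => u (f i)) i) := funext h1
    rw [h2, ← mem_aut.1 hg' n R]
  | @eq k i j h =>
    intro v u g hg hv
    show v i = v j ↔ u i = u j
    rw [hv, hv, Equiv.apply_eq_iff_eq]
    have key : ∀ i j : Fin k, (j : ℕ) = i + 1 →
        (V.lam (extv u) i = V.lam (extv u) j ↔ u i = u j) := by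
      intro i j hij
      have h1 := hV.eq_iff (extv u) i
      rw [← hij, extv_lt, extv_lt] at h1
      exact h1
    rcases lt_trichotomy (i : ℕ) (j : ℕ) with h1 | h1 | h1
    · exact key i j (by omega)
    · rw [Fin.ext h1]
      simp
    · rw [eq_comm, key j i (by omega), eq_comm]
  | neg φ ih =>
    intro v u g hg hv
    exact not_congr (ih v u g hg hv)
  | inf φ ih =>
    intro v u g hg hv
    exact forall_congr' fun i => ih i v u g hg hv
  | @ex k φ ih =>
    intro v u g hg hv
    have key : ∀ a y, a = g (V.lam (Function.update (extv u) k y) k) →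
        (Sat (toI c) φ (Fin.snoc v a) ↔ Sat (toI (bl V c)) φ (Fin.snoc u y)) := by
      intro a y hay
      refine ih _ _ g hg fun i => ?_
      have h1 : V.lam (extv (Fin.snoc u y : Fin (k + 1) → ℕ)) i =
          V.lam (Function.update (extv u) k y) i :=
        V.lam_congr fun p hp => extv_snoc u y (by have := i.2; omega)
      rw [h1]
      refine Fin.lastCases ?_ (fun i => ?_) i
      · rw [Fin.snoc_last, hay]
        rfl
      · rw [Fin.snoc_castSucc, hv]
        congr 1
        refine V.lam_congr fun p hp => ?_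
        rw [Function.update_of_ne]
        have h2 : (Fin.castSucc i : ℕ) = i := rfl
        have := i.2
        omega
    constructor
    · rintro ⟨a, ha⟩
      obtain ⟨y, hy⟩ := hV.extend (extv u) k g hg a
      exact ⟨y, (key a y hy.symm).1 ha⟩
    · rintro ⟨y, hy⟩
      exact ⟨_, (key _ y rfl).2 hy⟩
  | @sub k m f hf φ ih =>
    intro v u g hg hv
    obtain ⟨g', hg', h1⟩ := lam_sub hV f hf hg hv
    exact ih _ _ g' hg' h1

theorem meas_sat [∀ n, Countable (L.Relations n)] {k : ℕ} (φ : Adj L k) : ∀ v : Fin k → ℕ,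
    Measurable fun c : Code L => Sat (toI c) φ v := by
  induction φ with
  | @rel k n R f hf =>
    intro v
    refine measurableSet_setOfPred.1 ?_
    have h1 : Measurable fun c : Code L => c ⟨n, R, fun i : Fin n => v (f i)⟩ :=
      measurable_pi_apply _
    exact h1 (measurableSet_singleton true)
  | @eq k i j h =>
    intro v
    exact measurable_const
  | neg φ ih =>
    intro v
    exact (ih v).not
  | inf φ ih =>
    intro v
    exact Measurable.forall fun i => ih i v
  | ex φ ih =>
    intro v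
    exact Measurable.exists fun a => ih _
  | sub f hf φ ih =>
    intro v
    exact ih _

/-- Isomorphic structures satisfy the same formulas. -/
theorem sat_iso {c c' : Code L} (σ : ℕ ≃ ℕ)
    (hσ : ∀ n (R : L.Relations n) (t : Fin n → ℕ), c ⟨n, R, t⟩ = c' ⟨n, R, fun k => σ (t k)⟩)
    {k : ℕ} (φ : Adj L k) : ∀ v : Fin k → ℕ,
      (Sat (toI c) φ v ↔ Sat (toI c') φ fun i => σ (v i)) := by
  induction φ with
  | @rel k n R f hf =>
    intro v
    show c _ = true ↔ c' _ = true
    rw [hσ]
  | @eq k i j h =>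
    intro v
    exact (σ.apply_eq_iff_eq).symm
  | neg φ ih =>
    intro v
    exact not_congr (ih v)
  | inf φ ih =>
    intro v
    exact forall_congr' fun i => ih i v
  | @ex k φ ih =>
    intro v
    have key : ∀ a, (fun i => σ ((Fin.snoc v a : Fin (k + 1) → ℕ) i)) =
        (Fin.snoc (fun i => σ (v i)) (σ a) : Fin (k + 1) → ℕ) := by
      intro a
      funext i
      refine Fin.lastCases ?_ (fun i => ?_) i
      · rw [Fin.snoc_last, Fin.snoc_last]
      · rw [Fin.snoc_castSucc, Fin.snoc_castSucc]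
    constructor
    · rintro ⟨a, ha⟩
      refine ⟨σ a, ?_⟩
      rw [← key]
      exact (ih _).1 ha
    · rintro ⟨a, ha⟩
      refine ⟨σ.symm a, (ih _).2 ?_⟩
      rw [key, Equiv.apply_symm_apply]
      exact ha
  | sub f hf φ ih =>
    intro v
    exact ih _

end Pool.Agent.H94.AF
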