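import Pool.Agent.H94.AF.Pre

/-!
One word which is not adjacent suffices for the full conjecture.
-/

set_option autoImplicit false
set_option linter.unusedVariables false
set_option linter.unusedSectionVars false

namespace Pool.Agent.H94.AF

open FirstOrder FirstOrder.Language
open Pool.Agent.Y558.C3 (LE Sy vi X U Pr Rs Un Bi W I transfer cnt_jk exists_rep sem countable_LE)
open Pool.Agent.W889.FO (Vaught VaughtF vaughtF_iff SIso siso_of iso_rel)

variable {L : FirstOrder.Language.{0, 0}}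

/-- the symbols -/
inductive SP (L : FirstOrder.Language.{0, 0}) (n₀ : ℕ) : ℕ → Type
  | base {n : ℕ} (R : Sy L n) : SP L n₀ n
  | iv (R : Sy L 2) : SP L n₀ 2
  | jp (R : Sy L 2) (d : Bool) : SP L n₀ n₀
  | je : SP L n₀ n₀

/-- the language -/
def LP (L : FirstOrder.Language.{0, 0}) (n₀ : ℕ) : FirstOrder.Language.{0, 0} :=
  ⟨fun _ => Empty, SP L n₀⟩

instance (L : FirstOrder.Language.{0, 0}) (n₀ : ℕ) : (LP L n₀).IsRelational :=
  fun _ => inferInstanceAs (IsEmpty Empty)

variable {n₀ : ℕ}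

/-- the reduct -/
@[reducible] def red (S : (LP L n₀).Structure ℕ) : (LE L).Structure ℕ where
  funMap := fun {_} f => isEmptyElim f
  RelMap := fun {n} R v => @Structure.RelMap (LP L n₀) ℕ S n (SP.base R) v

/-- the definition of the symbol for equality -/
def DefE (p q : Fin n₀) (S : (LP L n₀).Structure ℕ) : Prop :=
  ∀ v : Fin n₀ → ℕ, @Structure.RelMap (LP L n₀) ℕ S n₀ SP.je v ↔ v p = v q

/-- the definition of the symbols for the converse relations -/
def DefI (S : (LP L n₀).Structure ℕ) : Prop :=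
  ∀ (R : Sy L 2) (x y : ℕ), @Structure.RelMap (LP L n₀) ℕ S 2 (SP.iv R) ![y, x] ↔
    Bi (L := LE L) (red S) R x y

/-- the definitions of the other symbols -/
def DefT (p q : Fin n₀) (S : (LP L n₀).Structure ℕ) : Prop :=
  ∀ (R : Sy L 2) (v : Fin n₀ → ℕ),
    @Structure.RelMap (LP L n₀) ℕ S n₀ (SP.jp R true) v ↔ Bi (L := LE L) (red S) R (v p) (v q)

def DefF (p q : Fin n₀) (S : (LP L n₀).Structure ℕ) : Prop :=
  ∀ (R : Sy L 2) (v : Fin n₀ → ℕ),
    @Structure.RelMap (LP L n₀) ℕ S n₀ (SP.jp R false) v ↔ Bi (L := LE L) (red S) R (v q) (v p)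

/-- all definitions -/
def Defs (p q : Fin n₀) (S : (LP L n₀).Structure ℕ) : Prop :=
  (DefE p q S ∧ DefT p q S) ∧ DefI S ∧ DefF p q S

/-- the expansion -/
@[reducible] def expn (p q : Fin n₀) (S : (LE L).Structure ℕ) : (LP L n₀).Structure ℕ where
  funMap := fun {_} f => isEmptyElim f
  RelMap := fun {n} R v => match n, R, v with
    | _, .base R, v => @Structure.RelMap (LE L) ℕ S _ R v
    | _, .iv R, v => Bi (L := LE L) S R (v (1 : Fin 2)) (v (0 : Fin 2))
    | _, .jp R true, v => Bi (L := LE L) S R (v p) (v q)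
    | _, .jp R false, v => Bi (L := LE L) S R (v q) (v p)
    | _, .je, v => v p = v q

theorem red_expn (p q : Fin n₀) (S : (LE L).Structure ℕ) : red (expn p q S) = S := by
  rcases S with ⟨F, R⟩
  have h1 : red (expn p q ⟨F, R⟩) = ⟨fun {_} f => isEmptyElim f, fun {n} Q t => R Q t⟩ := rfl
  rw [h1]
  congr 1
  funext n f
  exact isEmptyElim f

theorem defs_expn (p q : Fin n₀) (S : (LE L).Structure ℕ) : Defs p q (expn p q S) := by
  have h : red (expn p q S) = S := red_expn p q S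
  refine ⟨⟨fun v => Iff.rfl, fun R v => ?_⟩, fun R x y => ?_, fun R v => ?_⟩ <;> rw [h] <;>
    exact Iff.rfl

theorem red_iso {S S' : (LP L n₀).Structure ℕ} (h : SIso S S') : SIso (red S) (red S') := by
  obtain ⟨e⟩ := h
  obtain ⟨f, -⟩ := siso_of (S := red S) (S' := red S')
    (@FirstOrder.Language.Equiv.toEquiv (LP L n₀) ℕ ℕ S S' e) fun n R v =>
      iso_rel e (SP.base R) v
  exact ⟨f⟩

theorem iso_red {p q : Fin n₀} {S S' : (LP L n₀).Structure ℕ} (hS : Defs p q S)
    (hS' : Defs p q S') (h : SIso (red S) (red S')) : SIso S S' := by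
  obtain ⟨e⟩ := h
  have hb : ∀ (R : Sy L 2) (x y : ℕ), Bi (L := LE L) (red S') R (e x) (e y) ↔
      Bi (L := LE L) (red S) R x y := by
    intro R x y
    have h1 := iso_rel e (L := LE L) R ![x, y]
    have e1 : (fun i => e ((![x, y] : Fin 2 → ℕ) i)) = ![e x, e y] := by
      funext i
      fin_cases i <;> rfl
    rw [e1] at h1
    exact h1
  have hinj : Function.Injective e :=
    @FirstOrder.Language.Equiv.injective (LE L) ℕ ℕ (red S) (red S') e
  obtain ⟨f, -⟩ := siso_of (S := S) (S' := S')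
    (@FirstOrder.Language.Equiv.toEquiv (LE L) ℕ ℕ (red S) (red S') e) fun n R v => by
      cases R with
      | base R => exact iso_rel e (L := LE L) R v
      | iv R =>
        have e1 : (fun i => (@FirstOrder.Language.Equiv.toEquiv (LE L) ℕ ℕ (red S) (red S') e)
            (v i)) = ![e (v 0), e (v 1)] := by
          funext i
          fin_cases i <;> rfl
        have e2 : v = ![v 0, v 1] := by
          funext i
          fin_cases i <;> rfl
        rw [e1, hS'.2.1]
        conv_rhs => rw [e2, hS.2.1]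
        exact hb R _ _
      | jp R d =>
        cases d with
        | true =>
          rw [hS'.1.2, hS.1.2]
          exact hb R _ _
        | false =>
          rw [hS'.2.2, hS.2.2]
          exact hb R _ _
      | je =>
        rw [hS'.1.1, hS.1.1]
        exact hinj.eq_iff
  exact ⟨f⟩

/-- the transfer along the reducts -/
theorem vaught_red {p q : Fin n₀} {T : (LE L).Theory} {T' : (LP L n₀).Theory}
    (h : ∀ S, @Theory.Model (LP L n₀) ℕ S T' ↔ Defs p q S ∧ @Theory.Model (LE L) ℕ (red S) T)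
    (hV : Vaught (LP L n₀) T') : Vaught (LE L) T := by
  rcases hV with ⟨g, hg⟩ | ⟨f, h1, h2, h3⟩
  · left
    refine ⟨fun n => red (g n), fun S hS => ?_⟩
    have hS' : @Theory.Model (LP L n₀) ℕ (expn p q S) T' := by
      rw [h]
      refine ⟨defs_expn p q S, ?_⟩
      rw [red_expn]
      exact hS
    obtain ⟨n, hn⟩ := hg _ hS'
    refine ⟨n, ?_⟩
    have h4 : SIso (red (expn p q S)) (red (g n)) := red_iso hn
    rw [red_expn] at h4
    exact h4
  · right
    refine ⟨fun x => red (f x), fun x => ((h _).1 (h1 x)).2, fun x y hxy => ?_, fun n R a => ?_⟩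
    · exact h2 x y (iso_red ((h _).1 (h1 x)).1 ((h _).1 (h1 y)).1 hxy)
    · exact h3 n (SP.base R) a

section
variable {P : (n k : ℕ) → (Fin n → Fin k) → Prop} {V : (LP L n₀).Structure ℕ → Prop}
  (hP : ∀ (n k : ℕ) (h : n ≤ k), P n k (suffix h))
  {k₀ : ℕ} {w : Fin n₀ → Fin k₀} (hw : P n₀ k₀ w) {p q : Fin n₀}
  (hpq : (q : ℕ) = p + 1) {a b : ℕ} (hab : a + 2 ≤ b)
  (hab' : (a = w p ∧ b = w q) ∨ (b = w p ∧ a = w q))

/-- definitions -/
theorem ax_def {m : ℕ} {A B : (LP L n₀).Structure ℕ → (ℕ → ℕ) → Prop} {k : ℕ} (hm : m ≤ k)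
    (hA : Dn P V m A) (hB : Dn P V k B) : AxW P V (fun S => ∀ v : ℕ → ℕ, (B S v ↔ A S v)) := by
  refine AxW.of ((((hA.imp (hB.alls hm)).and (hA.not.imp (hB.not.alls hm))).alls
    (m := 0) (Nat.zero_le _)).congr fun S hS _ => ?_)
  constructor
  · intro h v
    obtain ⟨h1, h2⟩ := h v fun t ht => by omega
    constructor
    · intro h3
      by_contra h4
      exact h2 h4 v (fun _ _ => rfl) h3
    · intro h3
      exact h1 h3 v fun _ _ => rfl
  · intro h u _
    constructor
    · intro h1 u' hu'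
      exact (h u').2 ((hA.dep hS hu').2 h1)
    · intro h1 u' hu' h2
      exact h1 ((hA.dep hS hu').1 ((h u').1 h2))

theorem AxW.trans {V Z Z' : (LP L n₀).Structure ℕ → Prop} (h : AxW P V Z)
    (h' : AxW P (fun S => V S ∧ Z S) Z') : AxW P V (fun S => Z S ∧ Z' S) := by
  obtain ⟨T1, h1, h1'⟩ := h
  obtain ⟨T2, h2, h2'⟩ := h'
  refine ⟨T1 ∪ T2, ?_, fun S hS => ?_⟩
  · rintro σ (hσ | hσ)
    · exact h1 σ hσ
    · exact h2 σ hσ
  · constructor
    · intro h3
      have h4 : @Theory.Model (LP L n₀) ℕ S T1 :=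
        (@Theory.model_iff _ ℕ S _).2 fun σ hσ =>
          (@Theory.model_iff _ ℕ S _).1 h3 σ (Or.inl hσ)
      have h5 : @Theory.Model (LP L n₀) ℕ S T2 :=
        (@Theory.model_iff _ ℕ S _).2 fun σ hσ =>
          (@Theory.model_iff _ ℕ S _).1 h3 σ (Or.inr hσ)
      have h6 := (h1' S hS).1 h4
      exact ⟨h6, (h2' S ⟨hS, h6⟩).1 h5⟩
    · rintro ⟨h3, h4⟩
      refine (@Theory.model_iff _ ℕ S _).2 fun σ hσ => ?_
      rcases hσ with hσ | hσ
      · exact (@Theory.model_iff _ ℕ S _).1 ((h1' S hS).2 h3) σ hσ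
      · exact (@Theory.model_iff _ ℕ S _).1 ((h2' S ⟨hS, h3⟩).2 h4) σ hσ

theorem ext_at (v : Fin n₀ → ℕ) : (fun i : Fin n₀ => Pool.Agent.H94.FL.extv v i) = v :=
  funext fun i => extv_lt v i

include hP hpq in
theorem ax_E : AxW P V (fun S => DefE p q S ∧ DefT p q S) := by
  have hp : (p : ℕ) + 2 ≤ n₀ := by have := q.2; omega
  have h1 := ax_def hp (Dn.eq (V := V) hP p) (Dn.id hP (L := LP L n₀) SP.je)
  have h2 : AxW P V (fun S => ∀ (R : Sy L 2) (v : ℕ → ℕ),
      (@Structure.RelMap (LP L n₀) ℕ S n₀ (SP.jp R true) (fun i => v i) ↔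
        Bi (L := LE L) (red S) R (v p) (v (p + 1)))) := AxW.all fun R =>
    ax_def hp (Dn.bi hP (L := LP L n₀) (SP.base R) p) (Dn.id hP (L := LP L n₀) (SP.jp R true))
  refine (h1.congr fun S _ => ?_).and (h2.congr fun S _ => ?_)
  · constructor
    · intro h v
      have h3 := h (Pool.Agent.H94.FL.extv v)
      rw [ext_at, ← hpq, extv_lt, extv_lt] at h3
      exact h3
    · intro h v
      rw [← hpq]
      exact h _
  · constructor
    · intro h R v
      have h3 := h R (Pool.Agent.H94.FL.extv v)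
      rw [ext_at, ← hpq, extv_lt, extv_lt] at h3
      exact h3
    · intro h R v
      rw [← hpq]
      exact h R _

include hw hab hab' in
/-- atomic formulas with the given word -/
theorem dn_jump (R : (LP L n₀).Relations n₀) : Dn P V (b + 1) (fun S v => ∀ u : ℕ → ℕ,
    (∀ t < b + 1, u t = v t) → @Structure.RelMap (LP L n₀) ℕ S n₀ R fun i => u (w i)) := by
  have hb : b < k₀ := by
    rcases hab' with ⟨-, h⟩ | ⟨h, -⟩
    · rw [h]; exact (w q).2
    · rw [h]; exact (w p).2
  exact (Dn.rel R w hw).alls hb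

include hw hab hab' in
theorem dn_je (hV : ∀ S, V S → DefE p q S) : Dn P V (b + 1) (fun S v => v a = v b) := by
  refine (dn_jump hw hab hab' SP.je).congr fun S hS v => ?_
  have key : ∀ u : ℕ → ℕ, (∀ t < b + 1, u t = v t) →
      (@Structure.RelMap (LP L n₀) ℕ S n₀ SP.je (fun i => u (w i)) ↔ v a = v b) := by
    intro u hu
    rw [hV S hS]
    rcases hab' with ⟨h1, h2⟩ | ⟨h1, h2⟩
    · show u (w p) = u (w q) ↔ _
      rw [← h1, ← h2, hu a (by omega), hu b (by omega)]
    · show u (w p) = u (w q) ↔ _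
      rw [← h1, ← h2, hu a (by omega), hu b (by omega)]
      exact eq_comm
  exact ⟨fun h => (key v fun _ _ => rfl).1 (h v fun _ _ => rfl), fun h u hu => (key u hu).2 h⟩

include hP hw hab hab' in
theorem ax_I (hV : ∀ S, V S → DefE p q S) : AxW P V (fun S : (LP L n₀).Structure ℕ => DefI S) := by
  obtain ⟨c, rfl⟩ : ∃ c, b = c + 1 := ⟨b - 1, by omega⟩
  have h1 : ∀ R : Sy L 2, Dn P V (a + 2) (fun S v =>
      @Structure.RelMap (LP L n₀) ℕ S 2 (SP.iv R) ![v (a + 1), v a]) := by
    intro R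
    have h2 := (((dn_je hw hab hab' hV).imp
      (Dn.bi hP (L := LP L n₀) (SP.iv R) c)).all).chain hP (by omega)
    refine h2.congr fun S hS v => ?_
    constructor
    · intro h3
      let u : ℕ → ℕ := fun t => if t < a + 2 then v t else v (a + 1)
      have hu : ∀ t, a + 1 ≤ t → u t = v (a + 1) := by
        intro t ht
        show (if t < a + 2 then v t else v (a + 1)) = _
        split_ifs with h4
        · have : t = a + 1 := by omega
          rw [this]
        · rfl
      have hua : u a = v a := if_pos (by omega)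
      have h4 := h3 u (fun t ht => if_pos ht) (fun t h4 h5 => by rw [hu t h4, hu (t + 1) (by omega)])
        (u a) (by
          rw [Function.update_of_ne (by omega), Function.update_self])
      rw [Function.update_of_ne (by omega), Function.update_self, hu c (by omega), hua] at h4
      exact h4
    · intro h3 u hu hc z hz
      rw [Function.update_of_ne (by omega), Function.update_self] at hz
      rw [Function.update_of_ne (by omega), Function.update_self, ← hz,
        hc.eq (t := c) (by omega) (by omega), hu a (by omega), hu (a + 1) (by omega)]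
      exact h3
  have h2 : AxW P V (fun S => ∀ (R : Sy L 2) (v : ℕ → ℕ),
      (@Structure.RelMap (LP L n₀) ℕ S 2 (SP.iv R) ![v (a + 1), v a] ↔
        Bi (L := LE L) (red S) R (v a) (v (a + 1)))) := AxW.all fun R =>
    ax_def le_rfl (Dn.bi hP (L := LP L n₀) (SP.base R) a) (h1 R)
  refine h2.congr fun S _ => ?_
  constructor
  · intro h R x y
    have h3 := h R fun t => if t = a then x else y
    simp only [if_true, Nat.succ_ne_self, if_false] at h3
    exact h3
  · intro h R v
    exact h R _ _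

include hP hpq in
theorem ax_F (hV : ∀ S, V S → DefI S) : AxW P V (fun S => DefF p q S) := by
  have hp : (p : ℕ) + 2 ≤ n₀ := by have := q.2; omega
  have h2 : AxW P V (fun S => ∀ (R : Sy L 2) (v : ℕ → ℕ),
      (@Structure.RelMap (LP L n₀) ℕ S n₀ (SP.jp R false) (fun i => v i) ↔
        @Structure.RelMap (LP L n₀) ℕ S 2 (SP.iv R) ![v p, v (p + 1)])) := AxW.all fun R =>
    ax_def hp (Dn.bi hP (L := LP L n₀) (SP.iv R) p) (Dn.id hP (L := LP L n₀) (SP.jp R false))
  refine h2.congr fun S hS => ?_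
  constructor
  · intro h R v
    have h3 := h R (Pool.Agent.H94.FL.extv v)
    rw [ext_at, ← hpq, extv_lt, extv_lt, hV S hS] at h3
    exact h3
  · intro h R v
    rw [← hpq, hV S hS]
    exact h R _

include hP hw hpq hab hab' in
/-- the definitions can be axiomatised -/
theorem ax_defs : AxW P (fun _ => True) (fun S : (LP L n₀).Structure ℕ => Defs p q S) := by
  refine (ax_E hP hpq).trans ?_
  exact (ax_I hP hw hab hab' fun S hS => hS.2.1).trans (ax_F hP hpq fun S hS => hS.2)

/-- abbreviations -/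
abbrev E3 (P : (n k : ℕ) → (Fin n → Fin k) → Prop) (p q : Fin n₀) (a b : ℕ)
    (Q : (LP L n₀).Structure ℕ → ℕ → ℕ → ℕ → Prop) : Prop := D3 P (Defs p q) a b (b + 1) Q

abbrev E2 (P : (n k : ℕ) → (Fin n → Fin k) → Prop) (p q : Fin n₀) (a b : ℕ)
    (Q : (LP L n₀).Structure ℕ → ℕ → ℕ → Prop) : Prop := D2 P (Defs p q) a b Q

abbrev E1 (P : (n k : ℕ) → (Fin n → Fin k) → Prop) (p q : Fin n₀) (a : ℕ)
    (Q : (LP L n₀).Structure ℕ → ℕ → Prop) : Prop := D1 P (Defs p q) a Q

include hP in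
theorem e1_un (R : Sy L 1) : E1 P p q a fun S x => Un (L := LE L) (red S) R x :=
  Dn.un hP (L := LP L n₀) (SP.base R) a

include hP in
theorem e3_un2 (R : Sy L 1) : E3 P p q a b fun S x y z => Un (L := LE L) (red S) R z :=
  ⟨_, Dn.un hP (L := LP L n₀) (SP.base R) b, fun S _ v _ => Iff.rfl⟩

include hw hab hab' in
theorem e3_bi (R : Sy L 2) : (E3 P p q a b fun S x y z => Bi (L := LE L) (red S) R x z) ∧
    (E3 P p q a b fun S x y z => Bi (L := LE L) (red S) R z x) := by
  have hT : ∀ (S : (LP L n₀).Structure ℕ), Defs p q S → ∀ v : ℕ → ℕ,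
      ((∀ u : ℕ → ℕ, (∀ t < b + 1, u t = v t) →
        @Structure.RelMap (LP L n₀) ℕ S n₀ (SP.jp R true) fun i => u (w i)) ↔
        Bi (L := LE L) (red S) R (v (w p)) (v (w q))) := by
    intro S hS v
    have key : ∀ u : ℕ → ℕ, (∀ t < b + 1, u t = v t) →
        (@Structure.RelMap (LP L n₀) ℕ S n₀ (SP.jp R true) (fun i => u (w i)) ↔
          Bi (L := LE L) (red S) R (v (w p)) (v (w q))) := by
      intro u hu
      rw [hS.1.2]
      show Bi (L := LE L) (red S) R (u (w p)) (u (w q)) ↔ _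
      rw [hu (w p) (by omega), hu (w q) (by omega)]
    exact ⟨fun h => (key v fun _ _ => rfl).1 (h v fun _ _ => rfl), fun h u hu => (key u hu).2 h⟩
  have hF : ∀ (S : (LP L n₀).Structure ℕ), Defs p q S → ∀ v : ℕ → ℕ,
      ((∀ u : ℕ → ℕ, (∀ t < b + 1, u t = v t) →
        @Structure.RelMap (LP L n₀) ℕ S n₀ (SP.jp R false) fun i => u (w i)) ↔
        Bi (L := LE L) (red S) R (v (w q)) (v (w p))) := by
    intro S hS v
    have key : ∀ u : ℕ → ℕ, (∀ t < b + 1, u t = v t) →
        (@Structure.RelMap (LP L n₀) ℕ S n₀ (SP.jp R false) (fun i => u (w i)) ↔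
          Bi (L := LE L) (red S) R (v (w q)) (v (w p))) := by
      intro u hu
      rw [hS.2.2]
      show Bi (L := LE L) (red S) R (u (w q)) (u (w p)) ↔ _
      rw [hu (w p) (by omega), hu (w q) (by omega)]
    exact ⟨fun h => (key v fun _ _ => rfl).1 (h v fun _ _ => rfl), fun h u hu => (key u hu).2 h⟩
  rcases id hab' with ⟨h1, h2⟩ | ⟨h1, h2⟩
  · refine ⟨⟨_, dn_jump hw hab hab' (SP.jp R true), fun S hS v _ => ?_⟩,
      ⟨_, dn_jump hw hab hab' (SP.jp R false), fun S hS v _ => ?_⟩⟩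
    · rw [hT S hS v, ← h1, ← h2]
    · rw [hF S hS v, ← h1, ← h2]
  · refine ⟨⟨_, dn_jump hw hab hab' (SP.jp R false), fun S hS v _ => ?_⟩,
      ⟨_, dn_jump hw hab hab' (SP.jp R true), fun S hS v _ => ?_⟩⟩
    · rw [hF S hS v, ← h1, ← h2]
    · rw [hT S hS v, ← h1, ← h2]

include hP hab in
theorem e3_bi12 (R : Sy L 2) : E3 P p q a b fun S x y z => Bi (L := LE L) (red S) R y z := by
  obtain ⟨c, rfl⟩ : ∃ c, b = c + 1 := ⟨b - 1, by omega⟩
  refine ⟨_, Dn.bi hP (L := LP L n₀) (SP.base R) c, fun S _ v hv => ?_⟩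
  rw [hv.eq (t := c) (by omega) (by omega)]
  exact Iff.rfl

include hP hab in
theorem e3_bi21 (R : Sy L 2) : E3 P p q a b fun S x y z => Bi (L := LE L) (red S) R z y := by
  obtain ⟨c, rfl⟩ : ∃ c, b = c + 1 := ⟨b - 1, by omega⟩
  refine ⟨_, Dn.bi hP (L := LP L n₀) (SP.iv R) c, fun S hS v hv => ?_⟩
  rw [hv.eq (t := c) (by omega) (by omega)]
  exact hS.2.1 R _ _

include hP hab in
theorem e3_eq12 : E3 (L := L) P p q a b fun S x y z => y = z := by
  obtain ⟨c, rfl⟩ : ∃ c, b = c + 1 := ⟨b - 1, by omega⟩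
  refine ⟨_, Dn.eq (L := LP L n₀) hP c, fun S _ v hv => ?_⟩
  rw [hv.eq (t := c) (by omega) (by omega)]

include hw hab hab' in
theorem e3_eq02 : E3 (L := L) P p q a b fun S x y z => x = z :=
  ⟨_, dn_je hw hab hab' fun S hS => hS.1.1, fun S _ v _ => Iff.rfl⟩

include hP hw hab hab' in
theorem e2_un0 (R : Sy L 1) : E2 P p q a b fun S x y => Un (L := LE L) (red S) R x := by
  refine (D3.ex hab (Nat.lt_succ_self b)
    ((e3_eq02 hw hab hab').and (e3_un2 hP R))).congr fun S _ x y => ?_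
  exact ⟨fun ⟨z, h1, h2⟩ => h1 ▸ h2, fun h => ⟨x, rfl, h⟩⟩

include hP hab in
theorem e2_un1 (R : Sy L 1) : E2 P p q a b fun S x y => Un (L := LE L) (red S) R y := by
  obtain ⟨c, rfl⟩ : ∃ c, b = c + 1 := ⟨b - 1, by omega⟩
  refine ⟨_, Dn.un hP (L := LP L n₀) (SP.base R) c, fun S _ v hv => ?_⟩
  rw [hv.eq (t := c) (by omega) (by omega)]
  exact Iff.rfl

include hP hw hab hab' in
theorem e2_bi01 (R : Sy L 2) : E2 P p q a b fun S x y => Bi (L := LE L) (red S) R x y := by
  refine (D3.ex hab (Nat.lt_succ_self b)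
    ((e3_eq12 hP hab).and (e3_bi hw hab hab' R).1)).congr fun S _ x y => ?_
  exact ⟨fun ⟨z, h1, h2⟩ => h1 ▸ h2, fun h => ⟨y, rfl, h⟩⟩

include hP hw hab hab' in
theorem e2_bi10 (R : Sy L 2) : E2 P p q a b fun S x y => Bi (L := LE L) (red S) R y x := by
  refine (D3.ex hab (Nat.lt_succ_self b)
    ((e3_eq12 hP hab).and (e3_bi hw hab hab' R).2)).congr fun S _ x y => ?_
  exact ⟨fun ⟨z, h1, h2⟩ => h1 ▸ h2, fun h => ⟨y, rfl, h⟩⟩

include hP hw hab hab' in
theorem e2_eq : E2 (L := L) P p q a b fun S x y => x = y := by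
  refine (D3.ex hab (Nat.lt_succ_self b)
    ((e3_eq12 hP hab).and (e3_eq02 hw hab hab'))).congr fun S _ x y => ?_
  exact ⟨fun ⟨z, h1, h2⟩ => h2.trans h1.symm, fun h => ⟨y, rfl, h⟩⟩

end

end Pool.Agent.H94.AF
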