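import Pool.Agent.H94.AF.Lv

/-!
First-order formulas with adjacent words.
-/

set_option autoImplicit false
set_option linter.unusedVariables false

namespace Pool.Agent.H94.AF

open FirstOrder FirstOrder.Language

variable {L : FirstOrder.Language.{0, 0}}

/-- the relations of a structure -/
abbrev rls (S : L.Structure ℕ) : (n : ℕ) → L.Relations n → (Fin n → ℕ) → Prop :=
  fun n R t => @Structure.RelMap L ℕ S n R t

theorem realize_letter [L.IsRelational] (S : L.Structure ℕ) {k : ℕ}
    (t : L.Term (Empty ⊕ Fin k)) (v : Fin k → ℕ) :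
    @Term.realize L ℕ S _ (Sum.elim (fun e => e.elim) v) t = v (letter t) := by
  rcases t with (e | i) | ⟨f, _⟩
  · exact e.elim
  · rfl
  · exact isEmptyElim f

theorem adj_of_word {k : ℕ} {i j : Fin k} (h : Adjacent ![i, j]) :
    (i : ℕ) ≤ j + 1 ∧ (j : ℕ) ≤ i + 1 := h 0 1 rfl

/-- first-order formulas with adjacent words are adjacent formulas -/
theorem exists_adj [L.IsRelational] {P : (n k : ℕ) → (Fin n → Fin k) → Prop}
    (hP : ∀ (n k : ℕ) (f : Fin n → Fin k), P n k f → Adjacent f) {k : ℕ}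
    (φ : L.BoundedFormula Empty k) (hφ : InWords P φ) :
    ∃ ψ : Adj L k, ∀ (S : L.Structure ℕ) (v : Fin k → ℕ), Rz S φ v ↔ Sat (rls S) ψ v := by
  induction φ with
  | @falsum k =>
    refine ⟨.neg (.ex (.eq (Fin.last k) (Fin.last k) (by omega))), fun S v => ?_⟩
    constructor
    · exact fun h => h.elim
    · intro h
      exact h ⟨0, rfl⟩
  | @equal k t1 t2 =>
    refine ⟨.eq (letter t1) (letter t2) (adj_of_word (hP _ _ _ hφ)), fun S v => ?_⟩
    show @Term.realize L ℕ S _ (Sum.elim (fun e => e.elim) v) t1 =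
      @Term.realize L ℕ S _ (Sum.elim (fun e => e.elim) v) t2 ↔ v (letter t1) = v (letter t2)
    rw [realize_letter, realize_letter]
  | @rel k n R ts =>
    refine ⟨.rel R (fun i => letter (ts i)) (hP _ _ _ hφ), fun S v => ?_⟩
    show @Structure.RelMap L ℕ S n R (fun i =>
      @Term.realize L ℕ S _ (Sum.elim (fun e => e.elim) v) (ts i)) ↔
      @Structure.RelMap L ℕ S n R fun i => v (letter (ts i))
    simp only [realize_letter]
  | @imp k φ ψ h1 h2 =>
    obtain ⟨φ', h1⟩ := h1 hφ.1
    obtain ⟨ψ', h2⟩ := h2 hφ.2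
    refine ⟨.neg (.inf fun n => match n with | 0 => φ' | _ + 1 => .neg ψ'), fun S v => ?_⟩
    show (Rz S φ v → Rz S ψ v) ↔ ¬ ∀ n, Sat (rls S) (match n with | 0 => φ' | _ + 1 => .neg ψ') v
    rw [h1, h2]
    constructor
    · intro h h3
      exact h3 1 (h (h3 0))
    · intro h h3
      by_contra h4
      refine h fun n => ?_
      cases n with
      | zero => exact h3
      | succ n => exact h4
  | @all k φ ih =>
    obtain ⟨φ', h1⟩ := ih hφ
    refine ⟨.neg (.ex (.neg φ')), fun S v => ?_⟩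
    show (∀ a, Rz S φ (Fin.snoc v a)) ↔ ¬ ∃ a, ¬ Sat (rls S) φ' (Fin.snoc v a)
    push Not
    exact forall_congr' fun a => h1 S _

end Pool.Agent.H94.AF
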