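import Mathlib

/-!
Words over a set of letters with voltages: every letter `y` has a name `ν y`, an element of the old
structure, and every pair of letters a voltage `h x y`, an automorphism of the old structure. The
word `w` is read as the word `lam w` of elements of the old structure, where the voltages are
collected along the letters whose names are moved by some automorphism.
-/

set_option autoImplicit false

namespace Pool.Agent.H94.AF

open scoped Classical

/-- names and voltages; `Fx a` means that `a` is fixed by all automorphisms -/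
structure Volt where
  Fx : ℕ → Prop
  ν : ℕ → ℕ
  h : ℕ → ℕ → Equiv.Perm ℕ

namespace Volt

variable (V : Volt)

def hh : Option ℕ → ℕ → Equiv.Perm ℕ
  | none, _ => 1
  | some x, y => V.h x y

noncomputable def upd (s : Equiv.Perm ℕ × Option ℕ) (y : ℕ) : Equiv.Perm ℕ × Option ℕ :=
  if V.Fx (V.ν y) then s else (s.1 * V.hh s.2 y, some y)

noncomputable def st (w : ℕ → ℕ) (p : ℕ) : Equiv.Perm ℕ × Option ℕ :=
  Nat.rec (V.upd (1, none) (w 0)) (fun p s => V.upd s (w (p + 1))) p

theorem st_zero (w : ℕ → ℕ) : V.st w 0 = V.upd (1, none) (w 0) := rfl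

theorem st_succ (w : ℕ → ℕ) (p : ℕ) : V.st w (p + 1) = V.upd (V.st w p) (w (p + 1)) := rfl

noncomputable def tr (w : ℕ → ℕ) (p : ℕ) : Equiv.Perm ℕ := (V.st w p).1

/-- the word of elements of the old structure -/
noncomputable def lam (w : ℕ → ℕ) (p : ℕ) : ℕ := V.tr w p (V.ν (w p))

theorem upd_fix {s : Equiv.Perm ℕ × Option ℕ} {y : ℕ} (hy : V.Fx (V.ν y)) : V.upd s y = s := if_pos hy

theorem upd_nf {s : Equiv.Perm ℕ × Option ℕ} {y : ℕ} (hy : ¬ V.Fx (V.ν y)) :
    V.upd s y = (s.1 * V.hh s.2 y, some y) := if_neg hy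

theorem st_congr {w w' : ℕ → ℕ} {n : ℕ} (hw : ∀ p ≤ n, w p = w' p) : V.st w n = V.st w' n := by
  induction n with
  | zero => rw [st_zero, st_zero, hw 0 le_rfl]
  | succ n ih => rw [st_succ, st_succ, hw _ le_rfl, ih fun p hp => hw p (by omega)]

theorem lam_congr {w w' : ℕ → ℕ} {n : ℕ} (hw : ∀ p ≤ n, w p = w' p) : V.lam w n = V.lam w' n := by
  unfold lam tr
  rw [V.st_congr hw, hw n le_rfl]

theorem st_fix {w : ℕ → ℕ} {p : ℕ} (hp : V.Fx (V.ν (w (p + 1)))) : V.st w (p + 1) = V.st w p := by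
  rw [st_succ, V.upd_fix hp]

theorem st_nf {w : ℕ → ℕ} {p : ℕ} (hp : ¬ V.Fx (V.ν (w p))) :
    V.st w p = (V.tr w p, some (w p)) := by
  unfold tr
  cases p with
  | zero => rw [st_zero, V.upd_nf hp]
  | succ p => rw [st_succ, V.upd_nf hp]

theorem st_seg {w : ℕ → ℕ} {q p : ℕ} (hqp : q ≤ p) (h : ∀ r, q < r → r ≤ p → V.Fx (V.ν (w r))) :
    V.st w p = V.st w q := by
  induction p, hqp using Nat.le_induction with
  | base => rfl
  | succ p hqp ih =>
    rw [V.st_fix (h _ (by omega) le_rfl)]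
    exact ih fun r h1 h2 => h r h1 (by omega)

theorem st_none {w : ℕ → ℕ} {p : ℕ} (h : ∀ r ≤ p, V.Fx (V.ν (w r))) : V.st w p = (1, none) := by
  rw [V.st_seg (Nat.zero_le p) fun r _ h2 => h r h2, st_zero, V.upd_fix (h 0 (Nat.zero_le _))]

theorem st_cases (w : ℕ → ℕ) (p : ℕ) : (∀ r ≤ p, V.Fx (V.ν (w r))) ∨
    ∃ q ≤ p, ¬ V.Fx (V.ν (w q)) ∧ (∀ r, q < r → r ≤ p → V.Fx (V.ν (w r))) := by
  induction p with
  | zero =>
    by_cases h : V.Fx (V.ν (w 0))
    · left
      intro r hr
      rw [Nat.le_zero.1 hr]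
      exact h
    · exact Or.inr ⟨0, le_rfl, h, fun r h1 h2 => by omega⟩
  | succ p ih =>
    by_cases h : V.Fx (V.ν (w (p + 1)))
    · rcases ih with h1 | ⟨q, hq, h1, h2⟩
      · left
        intro r hr
        rcases Nat.le_succ_iff.1 hr with h2 | h2
        · exact h1 r h2
        · rw [h2]; exact h
      · refine Or.inr ⟨q, by omega, h1, fun r h3 h4 => ?_⟩
        rcases Nat.le_succ_iff.1 h4 with h5 | h5
        · exact h2 r h3 h5
        · rw [h5]; exact h
    · exact Or.inr ⟨p + 1, le_rfl, h, fun r h1 h2 => by omega⟩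

theorem tr_next {w : ℕ → ℕ} {q p : ℕ} (hqp : q < p) (hq : ¬ V.Fx (V.ν (w q)))
    (hp : ¬ V.Fx (V.ν (w p))) (h : ∀ r, q < r → r < p → V.Fx (V.ν (w r))) :
    V.tr w p = V.tr w q * V.h (w q) (w p) := by
  obtain ⟨p, rfl⟩ : ∃ p', p = p' + 1 := ⟨p - 1, by omega⟩
  unfold tr
  rw [st_succ, V.upd_nf hp, V.st_seg (q := q) (by omega) fun r h1 h2 => h r h1 (by omega), V.st_nf hq]
  rfl

theorem tr_first {w : ℕ → ℕ} {p : ℕ} (h : ∀ r < p, V.Fx (V.ν (w r))) : V.tr w p = 1 := by
  unfold tr
  cases p with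
  | zero =>
    rw [st_zero]
    by_cases hp : V.Fx (V.ν (w 0))
    · rw [V.upd_fix hp]
    · rw [V.upd_nf hp]
      rfl
  | succ p =>
    rw [st_succ, V.st_none fun r hr => h r (by omega)]
    by_cases hp : V.Fx (V.ν (w (p + 1)))
    · rw [V.upd_fix hp]
    · rw [V.upd_nf hp]
      rfl

/-- The properties of the voltages, for a group `G` of permutations. -/
structure Ok (G : Subgroup (Equiv.Perm ℕ)) : Prop where
  fx : ∀ a, V.Fx a ↔ ∀ g ∈ G, g a = a
  mem : ∀ x y, V.h x y ∈ G
  anti : ∀ x y, V.h y x = (V.h x y)⁻¹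
  self : ∀ x, V.h x x = 1
  ne : ∀ x y, x ≠ y → ¬ V.Fx (V.ν x) → ¬ V.Fx (V.ν y) → V.ν x ≠ V.h x y (V.ν y)
  king : ∀ x y, V.Fx (V.ν x) → V.ν x = V.ν y → x = y
  name : ∀ d, ∃ y, V.ν y = d
  rich : ∀ x d, ¬ V.Fx (V.ν x) → ¬ V.Fx d → d ≠ V.ν x →
    ∃ y, ¬ V.Fx (V.ν y) ∧ V.h x y (V.ν y) = d

variable {V}
variable {G : Subgroup (Equiv.Perm ℕ)}

theorem Ok.tr_mem (hV : V.Ok G) (w : ℕ → ℕ) (p : ℕ) : V.tr w p ∈ G := by
  have hs : ∀ s : Equiv.Perm ℕ × Option ℕ, s.1 ∈ G → ∀ y, (V.upd s y).1 ∈ G := by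
    intro s hs y
    unfold upd
    split_ifs
    · exact hs
    · refine G.mul_mem hs ?_
      cases s.2 with
      | none => exact G.one_mem
      | some x => exact hV.mem x y
  unfold tr
  induction p with
  | zero => exact hs _ G.one_mem _
  | succ p ih => exact hs _ ih _

theorem Ok.lam_fix (hV : V.Ok G) {w : ℕ → ℕ} {p : ℕ} (h : V.Fx (V.ν (w p))) :
    V.lam w p = V.ν (w p) := (hV.fx _).1 h _ (hV.tr_mem w p)

theorem Ok.fx_iff (hV : V.Ok G) {g : Equiv.Perm ℕ} (hg : g ∈ G) (a : ℕ) : V.Fx (g a) ↔ V.Fx a := by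
  rw [hV.fx, hV.fx]
  constructor
  · intro h k hk
    have h1 := h (g * k * g⁻¹) (G.mul_mem (G.mul_mem hg hk) (G.inv_mem hg))
    have h2 : g (k a) = g a := by simpa [Equiv.Perm.mul_apply] using h1
    exact g.injective h2
  · intro h k hk
    rw [h g hg, h k hk]

/-- Between the position `q` and `r`, all positions different from `q` have fixed names. -/
def Btw (V : Volt) (w : ℕ → ℕ) (q r : ℕ) : Prop :=
  ∀ p, (q ≤ p ∧ p ≤ r) ∨ (r ≤ p ∧ p ≤ q) → p ≠ q → V.Fx (V.ν (w p))

/-- Walking on a word: the new word is read as before, up to an automorphism. -/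
theorem Ok.walk (hV : V.Ok G) (w f : ℕ → ℕ) (m : ℕ)
    (hf : ∀ t < m, f t ≤ f (t + 1) + 1 ∧ f (t + 1) ≤ f t + 1) :
    ∃ g ∈ G, ∀ t ≤ m, V.lam (fun t => w (f t)) t = g (V.lam w (f t)) := by
  have key : ∀ m, (∀ t < m, f t ≤ f (t + 1) + 1 ∧ f (t + 1) ≤ f t + 1) →
      ((∀ t ≤ m, V.Fx (V.ν (w (f t)))) ∧ V.st (fun t => w (f t)) m = (1, none)) ∨
      ∃ g ∈ G, ∃ q, ¬ V.Fx (V.ν (w q)) ∧ V.st (fun t => w (f t)) m = (g * V.tr w q, some (w q)) ∧
        V.Btw w q (f m) ∧ ∀ t ≤ m, V.lam (fun t => w (f t)) t = g (V.lam w (f t)) := by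
    intro m
    induction m with
    | zero =>
      intro _
      by_cases h : V.Fx (V.ν (w (f 0)))
      · left
        refine ⟨fun t ht => ?_, ?_⟩
        · rw [Nat.le_zero.1 ht]; exact h
        · rw [st_zero, V.upd_fix h]
      · right
        refine ⟨(V.tr w (f 0))⁻¹, G.inv_mem (hV.tr_mem _ _), f 0, h, ?_, ?_, fun t ht => ?_⟩
        · rw [st_zero, V.upd_nf h]
          simp [hh]
        · intro p hp hne
          omega
        · rw [Nat.le_zero.1 ht]
          unfold lam tr
          rw [st_zero, V.upd_nf h]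
          simp [hh]
    | succ m ih =>
      intro hf
      have hstep := hf m (Nat.lt_succ_self m)
      rcases ih fun t ht => hf t (by omega) with ⟨h1, h2⟩ | ⟨g, hg, q, hq, h2, h3, h4⟩
      · by_cases h : V.Fx (V.ν (w (f (m + 1))))
        · left
          refine ⟨fun t ht => ?_, ?_⟩
          · rcases Nat.le_succ_iff.1 ht with h5 | h5
            · exact h1 t h5
            · rw [h5]; exact h
          · rw [V.st_fix (w := fun t => w (f t)) h, h2]
        · right
          refine ⟨(V.tr w (f (m + 1)))⁻¹, G.inv_mem (hV.tr_mem _ _), f (m + 1), h, ?_, ?_,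
            fun t ht => ?_⟩
          · rw [st_succ, V.upd_nf h, h2]
            simp [hh]
          · intro p hp hne
            omega
          · rcases Nat.le_succ_iff.1 ht with h5 | h5
            · have h6 := h1 t h5
              rw [hV.lam_fix (w := fun t => w (f t)) h6, hV.lam_fix h6]
              exact ((hV.fx _).1 h6 _ (G.inv_mem (hV.tr_mem _ _))).symm
            · subst h5
              unfold lam tr
              rw [st_succ, V.upd_nf h, h2]
              simp [hh]
      · by_cases h : V.Fx (V.ν (w (f (m + 1))))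
        · right
          refine ⟨g, hg, q, hq, ?_, ?_, fun t ht => ?_⟩
          · rw [V.st_fix (w := fun t => w (f t)) h, h2]
          · intro p hp hne
            by_cases hp1 : p = f (m + 1)
            · rw [hp1]; exact h
            · refine h3 p ?_ hne
              omega
          · rcases Nat.le_succ_iff.1 ht with h5 | h5
            · exact h4 t h5
            · subst h5
              rw [hV.lam_fix (w := fun t => w (f t)) h, hV.lam_fix h]
              exact ((hV.fx _).1 h _ hg).symm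
        · right
          have hnext : V.tr w (f (m + 1)) = V.tr w q * V.h (w q) (w (f (m + 1))) := by
            rcases lt_trichotomy q (f (m + 1)) with h5 | h5 | h5
            · refine V.tr_next h5 hq h fun r h6 h7 => h3 r ?_ (by omega)
              omega
            · rw [← h5, hV.self, mul_one]
            · have h8 := V.tr_next h5 h hq fun r h6 h7 => h3 r (by omega) (by omega)
              rw [h8, hV.anti (w (f (m + 1))) (w q)]
              simp
          have hst : V.st (fun t => w (f t)) (m + 1) =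
              (g * V.tr w (f (m + 1)), some (w (f (m + 1)))) := by
            rw [st_succ, V.upd_nf h, h2, hnext]
            simp [hh, mul_assoc]
          refine ⟨g, hg, f (m + 1), h, hst, ?_, fun t ht => ?_⟩
          · intro p hp hne
            omega
          · rcases Nat.le_succ_iff.1 ht with h5 | h5
            · exact h4 t h5
            · subst h5
              unfold lam
              conv_lhs => unfold tr
              rw [hst]
              rfl
  rcases key m hf with ⟨h1, h2⟩ | ⟨g, hg, q, -, -, -, h4⟩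
  · refine ⟨1, G.one_mem, fun t ht => ?_⟩
    rw [hV.lam_fix (w := fun t => w (f t)) (h1 t ht), hV.lam_fix (h1 t ht)]
    rfl
  · exact ⟨g, hg, h4⟩

/-- Adjacent letters are equal if and only if they are read as equal elements. -/
theorem Ok.eq_iff (hV : V.Ok G) (w : ℕ → ℕ) (p : ℕ) :
    V.lam w p = V.lam w (p + 1) ↔ w p = w (p + 1) := by
  by_cases h1 : V.Fx (V.ν (w p)) <;> by_cases h2 : V.Fx (V.ν (w (p + 1)))
  · rw [hV.lam_fix h1, hV.lam_fix h2]
    exact ⟨fun h => hV.king _ _ h1 h, fun h => by rw [h]⟩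
  · refine ⟨fun h => absurd ?_ h2, fun h => absurd (h ▸ h1) h2⟩
    rw [hV.lam_fix h1] at h
    have h3 : V.Fx (V.lam w (p + 1)) := h ▸ h1
    exact (hV.fx_iff (hV.tr_mem _ _) _).1 h3
  · refine ⟨fun h => absurd ?_ h1, fun h => absurd (h ▸ h2) h1⟩
    rw [hV.lam_fix h2] at h
    have h3 : V.Fx (V.lam w p) := h ▸ h2
    exact (hV.fx_iff (hV.tr_mem _ _) _).1 h3
  · have h3 := V.tr_next (Nat.lt_succ_self p) h1 h2 fun r h4 h5 => by omega
    unfold lam
    rw [h3, Equiv.Perm.mul_apply, Equiv.apply_eq_iff_eq]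
    constructor
    · intro h
      by_contra hne
      exact hV.ne _ _ hne h1 h2 h
    · intro h
      rw [← h, hV.self]
      rfl

/-- Every element of the old structure is found at the end of the word. -/
theorem Ok.extend (hV : V.Ok G) (w : ℕ → ℕ) (k : ℕ) (g : Equiv.Perm ℕ) (hg : g ∈ G) (d : ℕ) :
    ∃ y, g (V.lam (Function.update w k y) k) = d := by
  by_cases hd : V.Fx d
  · obtain ⟨y, hy⟩ := hV.name d
    refine ⟨y, ?_⟩
    have h1 : V.Fx (V.ν (Function.update w k y k)) := by
      rw [Function.update_self, hy]; exact hd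
    rw [hV.lam_fix h1, Function.update_self, hy]
    exact (hV.fx d).1 hd g hg
  · cases k with
    | zero =>
      obtain ⟨y, hy⟩ := hV.name (g⁻¹ d)
      refine ⟨y, ?_⟩
      unfold lam
      rw [V.tr_first fun r hr => by omega, Function.update_self, hy]
      simp
    | succ k =>
      have hpre : ∀ y, V.st (Function.update w (k + 1) y) k = V.st w k := fun y =>
        V.st_congr fun p hp => Function.update_of_ne (by omega) _ _
      rcases V.st_cases w k with h1 | ⟨q, hq, h1, h2⟩
      · obtain ⟨y, hy⟩ := hV.name (g⁻¹ d)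
        refine ⟨y, ?_⟩
        unfold lam
        rw [V.tr_first fun r hr => by
          rw [Function.update_of_ne (by omega)]; exact h1 r (by omega), Function.update_self, hy]
        simp
      · have hst : V.st w k = (V.tr w q, some (w q)) := by
          rw [V.st_seg hq h2, V.st_nf h1]
        set e := (V.tr w q)⁻¹ (g⁻¹ d) with he
        have he' : ¬ V.Fx e := by
          rw [he, hV.fx_iff (G.inv_mem (hV.tr_mem _ _)), hV.fx_iff (G.inv_mem hg)]
          exact hd
        have hfin : ∀ y, ¬ V.Fx (V.ν y) → V.h (w q) y (V.ν y) = e →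
            g (V.lam (Function.update w (k + 1) y) (k + 1)) = d := by
          intro y hy1 hy2
          have h3 : V.st (Function.update w (k + 1) y) (k + 1) =
              (V.tr w q * V.h (w q) y, some y) := by
            rw [st_succ, Function.update_self, V.upd_nf hy1, hpre, hst]
            rfl
          unfold lam tr
          rw [h3, Function.update_self, Equiv.Perm.mul_apply, hy2, he]
          simp
        by_cases hde : e = V.ν (w q)
        · refine ⟨w q, hfin _ h1 ?_⟩
          rw [hV.self, hde]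
          rfl
        · obtain ⟨y, hy1, hy2⟩ := hV.rich (w q) e h1 he' hde
          exact ⟨y, hfin y hy1 hy2⟩

/-- Comparison of two words. -/
theorem st_rel {V V' : Volt} (hFx : V.Fx = V'.Fx) (Rl : ℕ → ℕ → Prop)
    (hν : ∀ x x', Rl x x' → V.ν x = V'.ν x')
    (hh : ∀ x x' y y', Rl x x' → Rl y y' → V.h x y = V'.h x' y') {w w' : ℕ → ℕ} {n : ℕ}
    (hw : ∀ p ≤ n, Rl (w p) (w' p)) :
    V.tr w n = V'.tr w' n ∧ ((V.st w n).2 = none ∧ (V'.st w' n).2 = none ∨
      ∃ x x', Rl x x' ∧ (V.st w n).2 = some x ∧ (V'.st w' n).2 = some x') := by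
  have hs : ∀ (s s' : Equiv.Perm ℕ × Option ℕ), s.1 = s'.1 → (s.2 = none ∧ s'.2 = none ∨
      ∃ x x', Rl x x' ∧ s.2 = some x ∧ s'.2 = some x') → ∀ y y', Rl y y' →
      (V.upd s y).1 = (V'.upd s' y').1 ∧ ((V.upd s y).2 = none ∧ (V'.upd s' y').2 = none ∨
        ∃ x x', Rl x x' ∧ (V.upd s y).2 = some x ∧ (V'.upd s' y').2 = some x') := by
    intro s s' h1 h2 y y' hy
    by_cases h : V.Fx (V.ν y)
    · have h' : V'.Fx (V'.ν y') := by rw [← hν _ _ hy, ← hFx]; exact h
      rw [V.upd_fix h, V'.upd_fix h']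
      exact ⟨h1, h2⟩
    · have h' : ¬ V'.Fx (V'.ν y') := by rw [← hν _ _ hy, ← hFx]; exact h
      rw [V.upd_nf h, V'.upd_nf h']
      refine ⟨?_, Or.inr ⟨y, y', hy, rfl, rfl⟩⟩
      show s.1 * V.hh s.2 y = s'.1 * V'.hh s'.2 y'
      rcases h2 with ⟨h3, h4⟩ | ⟨x, x', h5, h3, h4⟩
      · rw [h1, h3, h4]
        rfl
      · rw [h1, h3, h4]
        show s'.1 * V.h x y = s'.1 * V'.h x' y'
        rw [hh _ _ _ _ h5 hy]
  unfold tr
  induction n with
  | zero => exact hs _ _ rfl (Or.inl ⟨rfl, rfl⟩) _ _ (hw 0 le_rfl)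
  | succ n ih =>
    obtain ⟨h1, h2⟩ := ih fun p hp => hw p (by omega)
    exact hs _ _ h1 h2 _ _ (hw _ le_rfl)

theorem lam_rel {V V' : Volt} (hFx : V.Fx = V'.Fx) (Rl : ℕ → ℕ → Prop)
    (hν : ∀ x x', Rl x x' → V.ν x = V'.ν x')
    (hh : ∀ x x' y y', Rl x x' → Rl y y' → V.h x y = V'.h x' y') {w w' : ℕ → ℕ} {n : ℕ}
    (hw : ∀ p ≤ n, Rl (w p) (w' p)) : V.lam w n = V'.lam w' n := by
  unfold lam
  rw [(st_rel hFx Rl hν hh hw).1, hν _ _ (hw n le_rfl)]

end Volt

end Pool.Agent.H94.AF
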